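import Pool.Agent.Run7.h477.RK.Iface

/-!
# Piece ANG: the angle between the line stabilisers in `SU_3(4)` has cosine at most `1/3`
-/

set_option autoImplicit false
set_option linter.unusedSectionVars false
set_option linter.unusedVariables false

namespace Run7.h477.RK.ANG

open Matrix Run7.h477.RK

section group
variable {K : Type} [Field K] [Finite K] [CharP K 2]

/-- basis vector -/
abbrev ee (i : Fin 3) : Fin 3 → K := Pi.single i 1

/-- matrix action -/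
def ac (g : T K 2) (x : Fin 3 → K) : Fin 3 → K := (g.1 : Matrix (Fin 3) (Fin 3) K).mulVec x

theorem ac_mul (g h : T K 2) (x : Fin 3 → K) : ac (g * h) x = ac g (ac h x) := by
  simp only [ac, Subgroup.coe_mul, Units.val_mul, Matrix.mulVec_mulVec]

theorem ac_one (x : Fin 3 → K) : ac (1 : T K 2) x = x := by
  simp only [ac, Subgroup.coe_one, Units.val_one, Matrix.one_mulVec]

theorem ac_inv (g : T K 2) (x : Fin 3 → K) : ac g⁻¹ (ac g x) = x := by
  rw [← ac_mul, inv_mul_cancel, ac_one]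

theorem ac_inv' (g : T K 2) (x : Fin 3 → K) : ac g (ac g⁻¹ x) = x := by
  rw [← ac_mul, mul_inv_cancel, ac_one]

theorem ac_smul (g : T K 2) (c : K) (x : Fin 3 → K) : ac g (c • x) = c • ac g x := by
  simp only [ac, Matrix.mulVec_smul]

theorem hf_ac (hK : Nat.card K = 16) (g : T K 2) (x y : Fin 3 → K) :
    hf 2 (ac g x) (ac g y) = hf 2 x y := hf_T (by rw [hK]; norm_num) g.2 x y

theorem hf_ac_right (hK : Nat.card K = 16) (g : T K 2) (x y : Fin 3 → K) :
    hf 2 x (ac g y) = hf 2 (ac g⁻¹ x) y := by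
  rw [← hf_ac hK g (ac g⁻¹ x) y, ac_inv']

theorem hf_ee (i k : Fin 3) (h : k ≠ i) : hf 2 (ee k : Fin 3 → K) (ee i) = 0 := by
  rw [hf_single_right]
  exact Pi.single_eq_of_ne h.symm _

theorem hf_ee_self (i : Fin 3) : hf 2 (ee i : Fin 3 → K) (ee i) = 1 := by
  rw [hf_single_right]
  exact Pi.single_eq_same _ _

theorem ac_ee (g : T K 2) (i k : Fin 3) :
    ac g (ee i) k = (g.1 : Matrix (Fin 3) (Fin 3) K) k i := by
  simp [ac, ee]

theorem norm_of (hK : Nat.card K = 16) {x : Fin 3 → K} (hx : hf 2 x x = 1) {ζ : K}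
    (h : hf 2 (ζ • x) (ζ • x) = 1) : ζ * bar 2 ζ = 1 := by
  rw [hf_smul_left, hf_smul_right, hx, mul_one] at h
  exact h

theorem mem_St (hK : Nat.card K = 16) {g : T K 2} {i : Fin 3} {ζ : K}
    (h : ac g (ee i) = ζ • (ee i : Fin 3 → K)) : g ∈ St K 2 i := by
  have hζ : ζ * bar 2 ζ = 1 := by
    refine norm_of hK (hf_ee_self i) ?_
    rw [← h, hf_ac hK, hf_ee_self]
  refine Subgroup.subset_closure fun k hk => ⟨?_, ?_⟩
  · rw [← ac_ee, h, Pi.smul_apply]
    show ζ • (Pi.single i 1 : Fin 3 → K) k = 0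
    rw [Pi.single_eq_of_ne hk, smul_zero]
  · rw [← ac_ee, ← hf_single_right 2 (ac g (ee k)) i]
    have h1 : hf 2 (ac g (ee k)) (ac g (ee i)) = 0 := by rw [hf_ac hK, hf_ee i k hk]
    rw [h, hf_smul_right] at h1
    rcases mul_eq_zero.1 h1 with h2 | h2
    · rw [h2, mul_zero] at hζ; exact absurd hζ zero_ne_one
    · exact h2

/-- `O`, the orbit of `e_i` -/
def inO (i : Fin 3) (x : Fin 3 → K) : Prop := ∃ g : T K 2, ac g (ee i) = x

theorem inO_ac {i : Fin 3} {x : Fin 3 → K} (h : inO i x) (g : T K 2) : inO i (ac g x) := by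
  obtain ⟨h, rfl⟩ := h
  exact ⟨g * h, ac_mul g h _⟩

theorem inO_hf (hK : Nat.card K = 16) {i : Fin 3} {x : Fin 3 → K} (h : inO i x) :
    hf 2 x x = 1 := by
  obtain ⟨h, rfl⟩ := h
  rw [hf_ac hK, hf_ee_self]

theorem inO_ne_zero (hK : Nat.card K = 16) {i : Fin 3} {x : Fin 3 → K} (h : inO i x) :
    x ≠ 0 := by
  rintro rfl
  have := inO_hf hK h
  rw [hf_zero_left] at this
  exact zero_ne_one this

end group

section rep
variable {K : Type} [Field K] [Finite K] [CharP K 2]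
variable {H : Type} [NormedAddCommGroup H] [InnerProductSpace ℂ H] [CompleteSpace H]
  (ρ : T K 2 →* unitary (H →L[ℂ] H))

/-- application of `ρ g` -/
noncomputable def ap (g : T K 2) (v : H) : H := (ρ g : H →L[ℂ] H) v

theorem ap_mul (g h : T K 2) (v : H) : ap ρ (g * h) v = ap ρ g (ap ρ h v) := by
  simp [ap, map_mul]

theorem ap_one (v : H) : ap ρ 1 v = v := by simp [ap]

theorem ap_inner (g : T K 2) (v w : H) : inner ℂ (ap ρ g v) (ap ρ g w) = inner ℂ v w :=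
  ContinuousLinearMap.inner_map_map_of_mem_unitary (ρ g).2 v w

theorem ap_norm (g : T K 2) (v : H) : ‖ap ρ g v‖ = ‖v‖ :=
  ContinuousLinearMap.norm_map_of_mem_unitary (ρ g).2 v

theorem ap_sum (g : T K 2) {ι : Type} (s : Finset ι) (f : ι → H) :
    ap ρ g (∑ x ∈ s, f x) = ∑ x ∈ s, ap ρ g (f x) := map_sum (ρ g : H →L[ℂ] H) f s

theorem ap_zero (g : T K 2) : ap ρ g 0 = 0 := map_zero (ρ g : H →L[ℂ] H)

open scoped Classical in
/-- the vectors `V x = ρ(g) v`, `x = g e_i` -/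
noncomputable def VV (v : H) (i : Fin 3) (x : Fin 3 → K) : H :=
  if h : ∃ g : T K 2, ac g (ee i) = x then ap ρ h.choose v else 0

variable {ρ}

theorem ap_eq (hK : Nat.card K = 16) {v : H} {i : Fin 3} (hv : ∀ a ∈ St K 2 i, ap ρ a v = v)
    {g h : T K 2} {ζ : K} (hg : ac g (ee i) = ζ • ac h (ee i)) : ap ρ g v = ap ρ h v := by
  have h1 : h⁻¹ * g ∈ St K 2 i := by
    apply mem_St (ζ := ζ) hK
    rw [ac_mul, hg, ac_smul, ac_inv]
  have h2 := hv _ h1
  calc ap ρ g v = ap ρ (h * (h⁻¹ * g)) v := by rw [mul_inv_cancel_left]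
    _ = ap ρ h v := by rw [ap_mul, h2]

theorem VV_ac (hK : Nat.card K = 16) {v : H} {i : Fin 3} (hv : ∀ a ∈ St K 2 i, ap ρ a v = v)
    (g : T K 2) : VV ρ v i (ac g (ee i)) = ap ρ g v := by
  unfold VV
  have hex : ∃ h : T K 2, ac h (ee i) = ac g (ee i) := ⟨g, rfl⟩
  rw [dif_pos hex]
  refine ap_eq (ζ := 1) hK hv ?_
  rw [one_smul]
  exact hex.choose_spec

theorem VV_equiv (hK : Nat.card K = 16) {v : H} {i : Fin 3} (hv : ∀ a ∈ St K 2 i, ap ρ a v = v)
    {x : Fin 3 → K} (hx : inO i x) (g : T K 2) : VV ρ v i (ac g x) = ap ρ g (VV ρ v i x) := by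
  obtain ⟨h, rfl⟩ := hx
  rw [← ac_mul, VV_ac hK hv, VV_ac hK hv, ap_mul]

theorem VV_norm (hK : Nat.card K = 16) {v : H} {i : Fin 3} (hv : ∀ a ∈ St K 2 i, ap ρ a v = v)
    {x : Fin 3 → K} (hx : inO i x) : ‖VV ρ v i x‖ = ‖v‖ := by
  obtain ⟨h, rfl⟩ := hx
  rw [VV_ac hK hv, ap_norm]

theorem VV_smul (hK : Nat.card K = 16) {v : H} {i : Fin 3} (hv : ∀ a ∈ St K 2 i, ap ρ a v = v)
    {x : Fin 3 → K} {ζ : K} (hx : inO i x) (hx' : inO i (ζ • x)) :
    VV ρ v i (ζ • x) = VV ρ v i x := by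
  obtain ⟨h, rfl⟩ := hx
  obtain ⟨g, hg⟩ := hx'
  rw [← hg, VV_ac hK hv, VV_ac hK hv]
  exact ap_eq (ζ := ζ) hK hv hg

end rep

section sums
open scoped Classical in
/-- the orbit -/
noncomputable def OO (K : Type) [Field K] [Fintype K] (i : Fin 3) : Finset (Fin 3 → K) :=
  Finset.univ.filter (fun x => inO i x)

variable {K : Type} [Field K] [Fintype K] [CharP K 2]
variable {H : Type} [NormedAddCommGroup H] [InnerProductSpace ℂ H] [CompleteSpace H]
  {ρ : T K 2 →* unitary (H →L[ℂ] H)}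

theorem mem_OO {i : Fin 3} {x : Fin 3 → K} : x ∈ OO K i ↔ inO i x := by simp [OO]

open scoped Classical in
/-- the vectors `W y` -/
noncomputable def WW (ρ : T K 2 →* unitary (H →L[ℂ] H)) (v : H) (i : Fin 3) (y : Fin 3 → K) : H :=
  ∑ x ∈ OO K i, if hf 2 x y = 0 then VV ρ v i x else 0

theorem sum_OO_ac {M : Type} [AddCommMonoid M] (i : Fin 3) (g : T K 2) (f : (Fin 3 → K) → M) :
    ∑ x ∈ OO K i, f (ac g x) = ∑ x ∈ OO K i, f x := by
  refine Finset.sum_bij' (fun x _ => ac g x) (fun x _ => ac g⁻¹ x) ?_ ?_ ?_ ?_ ?_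
  · intro x hx; exact mem_OO.2 (inO_ac (mem_OO.1 hx) g)
  · intro x hx; exact mem_OO.2 (inO_ac (mem_OO.1 hx) g⁻¹)
  · intro x hx; exact ac_inv g x
  · intro x hx; exact ac_inv' g x
  · intro x hx; rfl

theorem WW_ac (hK : Nat.card K = 16) {v : H} {i : Fin 3} (hv : ∀ a ∈ St K 2 i, ap ρ a v = v)
    (g : T K 2) (y : Fin 3 → K) : WW ρ v i (ac g y) = ap ρ g (WW ρ v i y) := by
  unfold WW
  rw [ap_sum, ← sum_OO_ac i g]
  refine Finset.sum_congr rfl fun x hx => ?_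
  rw [hf_ac hK]
  split_ifs with h
  · exact VV_equiv hK hv (mem_OO.1 hx) g
  · rw [ap_zero]

theorem WW_smul {v : H} {i : Fin 3} {c : K} (hc : c ≠ 0) (y : Fin 3 → K) :
    WW ρ v i (c • y) = WW ρ v i y := by
  unfold WW
  refine Finset.sum_congr rfl fun x hx => ?_
  have : hf 2 x (c • y) = 0 ↔ hf 2 x y = 0 := by
    rw [hf_smul_right, mul_eq_zero, or_iff_right (bar_ne_zero hc)]
  by_cases h : hf 2 x y = 0
  · rw [if_pos h, if_pos (this.2 h)]
  · rw [if_neg h, if_neg (fun h1 => h (this.1 h1))]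

/-- the sum over the orbit vanishes -/
theorem sum_VV (hK : Nat.card K = 16) {v : H} {i : Fin 3} (hv : ∀ a ∈ St K 2 i, ap ρ a v = v)
    (hz : ∀ z : H, (∀ g : T K 2, ap ρ g z = z) → inner ℂ z v = 0) :
    ∑ x ∈ OO K i, VV ρ v i x = 0 := by
  set z := ∑ x ∈ OO K i, VV ρ v i x with hzdef
  have h1 : ∀ g : T K 2, ap ρ g z = z := by
    intro g
    rw [hzdef, ap_sum, ← sum_OO_ac i g (fun x => VV ρ v i x)]
    exact Finset.sum_congr rfl fun x hx => (VV_equiv hK hv (mem_OO.1 hx) g).symm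
  have h2 := hz z h1
  have h3 : inner ℂ z z = 0 := by
    conv_lhs => rw [hzdef]
    rw [← hzdef, hzdef, inner_sum]
    refine Finset.sum_eq_zero fun x hx => ?_
    rw [← hzdef]
    obtain ⟨g, rfl⟩ := mem_OO.1 hx
    rw [VV_ac hK hv, ← h1 g, ap_inner, h2]
  exact inner_self_eq_zero.1 h3

/-- the number of `y` orthogonal to `x` and `x'` -/
noncomputable def NN (x x' : Fin 3 → K) : ℕ := Nat.card {y : Fin 3 → K // hf 2 x y = 0 ∧ hf 2 x' y = 0}

open scoped Classical in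
theorem sum_NN (x x' : Fin 3 → K) (a : ℂ) :
    ∑ y : Fin 3 → K, (if hf 2 x y = 0 then (if hf 2 x' y = 0 then a else 0) else 0) =
      (NN x x' : ℂ) * a := by
  have h1 : ∀ y : Fin 3 → K, (if hf 2 x y = 0 then (if hf 2 x' y = 0 then a else 0) else 0) =
      if hf 2 x y = 0 ∧ hf 2 x' y = 0 then a else 0 := by
    intro y
    split_ifs with h1 h2 h3 <;> simp_all
  rw [Finset.sum_congr rfl fun y _ => h1 y, ← Finset.sum_filter, Finset.sum_const, nsmul_eq_mul,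
    NN, Nat.card_eq_fintype_card, Fintype.card_subtype]

open scoped Classical in
theorem sum_WW (v : H) (i : Fin 3) :
    ∑ y : Fin 3 → K, inner ℂ (WW ρ v i y) (WW ρ v i y) =
      ∑ x ∈ OO K i, ∑ x' ∈ OO K i, (NN x x' : ℂ) * inner ℂ (VV ρ v i x) (VV ρ v i x') := by
  have h1 : ∀ y : Fin 3 → K, inner ℂ (WW ρ v i y) (WW ρ v i y) =
      ∑ x ∈ OO K i, ∑ x' ∈ OO K i, (if hf 2 x y = 0 then (if hf 2 x' y = 0 then
        (inner ℂ (VV ρ v i x) (VV ρ v i x') : ℂ) else 0) else 0) := by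
    intro y
    conv_lhs => unfold WW
    rw [sum_inner]
    refine Finset.sum_congr rfl fun x hx => ?_
    rw [inner_sum]
    refine Finset.sum_congr rfl fun x' hx' => ?_
    split_ifs <;> simp
  rw [Finset.sum_congr rfl fun y _ => h1 y, Finset.sum_comm]
  refine Finset.sum_congr rfl fun x hx => ?_
  rw [Finset.sum_comm]
  refine Finset.sum_congr rfl fun x' hx' => ?_
  exact sum_NN x x' _

theorem inner_VV (hK : Nat.card K = 16) {v : H} {i : Fin 3} (hv : ∀ a ∈ St K 2 i, ap ρ a v = v)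
    {x x' : Fin 3 → K} {μ : K} (hx : inO i x) (hx' : inO i x') (h : x' = μ • x) :
    inner ℂ (VV ρ v i x) (VV ρ v i x') = ((‖v‖ ^ 2 : ℝ) : ℂ) := by
  subst h
  rw [VV_smul hK hv hx hx', inner_self_eq_norm_sq_to_K, VV_norm hK hv hx]
  push_cast; rfl

open scoped Classical in
/-- the number of the multiples of `x` in the orbit -/
noncomputable def mm (i : Fin 3) (x : Fin 3 → K) : ℕ :=
  ((OO K i).filter (fun x' => ∃ μ : K, x' = μ • x)).card

open scoped Classical in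
theorem mm_le (hC : S_CNT) (hK : Nat.card K = 16) (i : Fin 3) {x : Fin 3 → K} (hx : inO i x) :
    mm i x ≤ 5 := by
  obtain ⟨-, h2, -⟩ := hC K hK
  refine le_trans ?_ h2
  unfold mm
  rw [Nat.card_eq_fintype_card, Fintype.card_subtype]
  have hx1 := inO_hf hK hx
  refine Finset.card_le_card_of_surjOn (fun a => a • x) ?_
  intro x' hx'
  simp only [Finset.coe_filter, Set.mem_ofPred_eq, mem_OO] at hx'
  obtain ⟨hx', μ, rfl⟩ := hx'
  refine ⟨μ, ?_, rfl⟩
  simp only [Finset.coe_filter, Set.mem_ofPred_eq, Finset.mem_univ, true_and]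
  exact norm_of hK hx1 (inO_hf hK hx')

open scoped Classical in
theorem sum_row (hC : S_CNT) (hK : Nat.card K = 16) {v : H} {i : Fin 3}
    (hv : ∀ a ∈ St K 2 i, ap ρ a v = v)
    (hz : ∀ z : H, (∀ g : T K 2, ap ρ g z = z) → inner ℂ z v = 0) {x : Fin 3 → K}
    (hx : inO i x) :
    ∑ x' ∈ OO K i, (NN x x' : ℂ) * inner ℂ (VV ρ v i x) (VV ρ v i x') =
      ((240 * mm i x * ‖v‖ ^ 2 : ℝ) : ℂ) := by
  obtain ⟨-, -, h3, h4, -⟩ := hC K hK
  have h5 : ∀ x' ∈ OO K i, (NN x x' : ℂ) * inner ℂ (VV ρ v i x) (VV ρ v i x') =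
      16 * inner ℂ (VV ρ v i x) (VV ρ v i x') +
        if ∃ μ : K, x' = μ • x then ((240 * ‖v‖ ^ 2 : ℝ) : ℂ) else 0 := by
    intro x' hx'
    split_ifs with h
    · obtain ⟨μ, hμ⟩ := h
      rw [inner_VV hK hv hx (mem_OO.1 hx') hμ]
      have hN : NN x x' = 256 := by
        rw [← h4 x (inO_ne_zero hK hx)]
        unfold NN
        refine Nat.card_congr (Equiv.subtypeEquivRight fun y => ?_)
        rw [hμ, hf_smul_left]
        constructor
        · exact fun h => h.1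
        · intro h; exact ⟨h, by rw [h, mul_zero]⟩
      rw [hN]
      push_cast; ring
    · have hN : NN x x' = 16 := h3 x x' (inO_ne_zero hK hx) (fun μ hμ => h ⟨μ, hμ⟩)
      rw [hN]
      push_cast; ring
  rw [Finset.sum_congr rfl h5, Finset.sum_add_distrib, ← Finset.mul_sum, ← inner_sum,
    sum_VV hK hv hz, inner_zero_right, mul_zero, zero_add, ← Finset.sum_filter, Finset.sum_const,
    nsmul_eq_mul]
  unfold mm
  push_cast; ring

/-- the upper bound -/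
theorem upper (hC : S_CNT) (hK : Nat.card K = 16) {v : H} {i : Fin 3}
    (hv : ∀ a ∈ St K 2 i, ap ρ a v = v)
    (hz : ∀ z : H, (∀ g : T K 2, ap ρ g z = z) → inner ℂ z v = 0) :
    ∑ y : Fin 3 → K, ‖WW ρ v i y‖ ^ 2 ≤ 1200 * (OO K i).card * ‖v‖ ^ 2 := by
  have h1 := sum_WW (ρ := ρ) v i
  rw [Finset.sum_congr rfl fun x hx => sum_row hC hK hv hz (mem_OO.1 hx)] at h1
  have h2 : ((∑ y : Fin 3 → K, ‖WW ρ v i y‖ ^ 2 : ℝ) : ℂ) =
      ((∑ x ∈ OO K i, 240 * mm i x * ‖v‖ ^ 2 : ℝ) : ℂ) := by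
    push_cast
    push_cast at h1
    rw [← h1]
    refine Finset.sum_congr rfl fun y _ => ?_
    rw [inner_self_eq_norm_sq_to_K]
    rfl
  have h3 : ∑ y : Fin 3 → K, ‖WW ρ v i y‖ ^ 2 = ∑ x ∈ OO K i, 240 * mm i x * ‖v‖ ^ 2 := by
    exact_mod_cast h2
  rw [h3]
  calc ∑ x ∈ OO K i, 240 * (mm i x : ℝ) * ‖v‖ ^ 2 ≤ ∑ x ∈ OO K i, 240 * (5 : ℝ) * ‖v‖ ^ 2 := by
        refine Finset.sum_le_sum fun x hx => ?_
        have h4 : (mm i x : ℝ) ≤ 5 := by exact_mod_cast mm_le hC hK i (mem_OO.1 hx)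
        have h5 : 0 ≤ ‖v‖ ^ 2 := by positivity
        nlinarith
    _ = 1200 * (OO K i).card * ‖v‖ ^ 2 := by
        rw [Finset.sum_const, nsmul_eq_mul]; ring

open scoped Classical in
/-- the lower bound -/
theorem lower (hC : S_CNT) (hK : Nat.card K = 16) {v : H} {i j : Fin 3}
    (hv : ∀ a ∈ St K 2 i, ap ρ a v = v) (hj : inO i (ee j : Fin 3 → K)) :
    3 * (OO K i).card * ‖WW ρ v i (ee j)‖ ^ 2 ≤ ∑ y : Fin 3 → K, ‖WW ρ v i y‖ ^ 2 := by
  obtain ⟨-, -, -, -, h5⟩ := hC K hK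
  set F : Finset K := Finset.univ.filter (fun c => c ≠ 0 ∧ bar 2 c = c) with hF
  have hFc : F.card = 3 := by
    rw [← h5, Nat.card_eq_fintype_card, Fintype.card_subtype]
  have hinj : Set.InjOn (fun p : K × (Fin 3 → K) => p.1 • p.2) (F ×ˢ OO K i : Finset _) := by
    rintro ⟨c, x⟩ h ⟨c', x'⟩ h' he
    simp only [Finset.coe_product, Set.mem_prod, Finset.mem_coe, hF, Finset.mem_filter,
      Finset.mem_univ, true_and, mem_OO] at h h'
    simp only at he
    have hx := inO_hf hK h.2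
    have hx' := inO_hf hK h'.2
    have e1 : c ^ 2 = c' ^ 2 := by
      have e2 : hf 2 (c • x) (c • x) = hf 2 (c' • x') (c' • x') := by rw [he]
      rw [hf_smul_left, hf_smul_right, hf_smul_left, hf_smul_right, hx, hx', h.1.2, h'.1.2] at e2
      linear_combination e2
    have e3 : c = c' := sq_inj e1
    subst e3
    have e4 : x = x' := by
      have := congrArg (fun z => c⁻¹ • z) he
      simpa [smul_smul, inv_mul_cancel₀ h.1.1] using this
    rw [e4]
  have hval : ∀ p ∈ F ×ˢ OO K i, ‖WW ρ v i (p.1 • p.2)‖ ^ 2 = ‖WW ρ v i (ee j)‖ ^ 2 := by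
    rintro ⟨c, x⟩ h
    simp only [Finset.mem_product, hF, Finset.mem_filter, Finset.mem_univ, true_and, mem_OO] at h
    obtain ⟨⟨hc, -⟩, g, hg⟩ := h
    obtain ⟨n, hn⟩ := hj
    simp only
    rw [WW_smul hc, ← hg]
    have : ac g (ee i) = ac (g * n⁻¹) (ee j) := by rw [ac_mul, ← hn, ac_inv]
    rw [this, WW_ac hK hv, ap_norm]
  calc 3 * (OO K i).card * ‖WW ρ v i (ee j)‖ ^ 2
      = ∑ p ∈ F ×ˢ OO K i, ‖WW ρ v i (p.1 • p.2)‖ ^ 2 := by
        rw [Finset.sum_congr rfl hval, Finset.sum_const, Finset.card_product, hFc, nsmul_eq_mul]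
        push_cast; ring
    _ = ∑ y ∈ (F ×ˢ OO K i).image (fun p : K × (Fin 3 → K) => p.1 • p.2), ‖WW ρ v i y‖ ^ 2 := by
        rw [Finset.sum_image]
        exact hinj
    _ ≤ ∑ y : Fin 3 → K, ‖WW ρ v i y‖ ^ 2 :=
        Finset.sum_le_sum_of_subset_of_nonneg (Finset.subset_univ _) fun _ _ _ => by positivity

end sums

/-! ### The rotations -/
section rot
variable {K : Type} [Field K] [Finite K] [CharP K 2]

theorem pl_ee {i j : Fin 3} (hij : i ≠ j) (a b : K) :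
    (pl 2 i j a b).mulVec (ee i) = a • (ee i : Fin 3 → K) + b • (ee j : Fin 3 → K) := by
  funext l
  simp only [ee, Matrix.mulVec_single_one, Matrix.col_apply, Pi.add_apply, Pi.smul_apply,
    smul_eq_mul, pl, if_true]
  by_cases h1 : l = i
  · subst h1
    simp [Pi.single_eq_of_ne hij]
  · by_cases h2 : l = j
    · subst h2
      simp [h1]
    · simp [h1, h2]

theorem swap_mem (hP : S_PL) (hK : Nat.card K = 16) {i j : Fin 3} (hij : i ≠ j) :
    inO i (ee j : Fin 3 → K) := by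
  obtain ⟨g, hg, hgm⟩ := hP K 2 (by rw [hK]; norm_num) i j hij 0 1 (by simp [bar_one])
  refine ⟨⟨g, hg⟩, ?_⟩
  unfold ac
  show (g : Matrix (Fin 3) (Fin 3) K).mulVec (ee i) = _
  rw [hgm, pl_ee hij]
  simp

/-- a rotation in the plane `i, k` preserves the line of `e_j` -/
theorem rot_mem (hP : S_PL) (hK : Nat.card K = 16) {i j k : Fin 3} (hik : i ≠ k) (hij : i ≠ j)
    (hjk : j ≠ k) {a b : K} (h : a * bar 2 a + b * bar 2 b = 1) :
    ∃ g : T K 2, g ∈ St K 2 j ∧ ac g (ee i) = a • (ee i : Fin 3 → K) + b • (ee k : Fin 3 → K) := by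
  obtain ⟨g, hg, hgm⟩ := hP K 2 (by rw [hK]; norm_num) i k hik a b h
  refine ⟨⟨g, hg⟩, Subgroup.subset_closure ?_, ?_⟩
  · intro l hl
    show (g : Matrix (Fin 3) (Fin 3) K) l j = 0 ∧ (g : Matrix (Fin 3) (Fin 3) K) j l = 0
    rw [hgm]
    unfold pl
    rw [if_neg hij.symm, if_neg hjk, if_neg hl]
    refine ⟨rfl, ?_⟩
    by_cases h1 : l = i
    · rw [if_pos h1, if_neg hij.symm, if_neg hjk]
    · rw [if_neg h1]
      by_cases h2 : l = k
      · rw [if_pos h2, if_neg hij.symm, if_neg hjk]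
      · rw [if_neg h2, if_neg (Ne.symm hl)]
  · unfold ac
    show (g : Matrix (Fin 3) (Fin 3) K).mulVec (ee i) = _
    rw [hgm, pl_ee hik]

end rot

section final
variable {K : Type} [Field K] [Fintype K] [CharP K 2]
variable {H : Type} [NormedAddCommGroup H] [InnerProductSpace ℂ H] [CompleteSpace H]
  {ρ : T K 2 →* unitary (H →L[ℂ] H)}

theorem third (i j : Fin 3) : ∃ k : Fin 3, i ≠ k ∧ j ≠ k := by
  revert i j; decide

/-- the combination `a e_i + b e_k` -/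
def cmb (i k : Fin 3) (p : K × K) : Fin 3 → K :=
  p.1 • (ee i : Fin 3 → K) + p.2 • (ee k : Fin 3 → K)

theorem cmb_i {i k : Fin 3} (h : i ≠ k) (p : K × K) : cmb i k p i = p.1 := by
  simp [cmb, ee, Pi.single_eq_of_ne h]

theorem cmb_k {i k : Fin 3} (h : i ≠ k) (p : K × K) : cmb i k p k = p.2 := by
  simp [cmb, ee, Pi.single_eq_of_ne h.symm]

theorem cmb_j {i j k : Fin 3} (hij : i ≠ j) (hjk : j ≠ k) (p : K × K) : cmb i k p j = 0 := by
  simp [cmb, ee, Pi.single_eq_of_ne hij.symm, Pi.single_eq_of_ne hjk]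

theorem fin3 {i j k : Fin 3} (hik : i ≠ k) (hij : i ≠ j) (hjk : j ≠ k) (l : Fin 3) :
    l = i ∨ l = j ∨ l = k := by
  revert i j k l; decide

theorem eq_cmb {i j k : Fin 3} (hik : i ≠ k) (hij : i ≠ j) (hjk : j ≠ k) {x : Fin 3 → K}
    (hx : x j = 0) : x = cmb i k (x i, x k) := by
  funext l
  rcases fin3 hik hij hjk l with rfl | rfl | rfl
  · rw [cmb_i hik]
  · rw [cmb_j hij hjk, hx]
  · rw [cmb_k hik]

theorem hf_cmb (hK : Nat.card K = 16) {i k : Fin 3} (hik : i ≠ k) (p : K × K) :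
    hf 2 (cmb i k p) (cmb i k p) = p.1 * bar 2 p.1 + p.2 * bar 2 p.2 := by
  unfold cmb
  simp only [hf_add_left, hf_add_right, hf_smul_left, hf_smul_right, hf_ee_self,
    hf_ee i k hik.symm, hf_ee k i hik]
  ring

open scoped Classical in
/-- `⟨W e_j, w⟩ = 60 ⟨v, w⟩` -/
theorem inner_WW (hC : S_CNT) (hP : S_PL) (hK : Nat.card K = 16) {v w : H} {i j k : Fin 3}
    (hik : i ≠ k) (hij : i ≠ j) (hjk : j ≠ k)
    (hv : ∀ a ∈ St K 2 i, ap ρ a v = v) (hw : ∀ a ∈ St K 2 j, ap ρ a w = w) :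
    inner ℂ (WW ρ v i (ee j)) w = 60 * inner ℂ v w := by
  obtain ⟨h1, -⟩ := hC K hK
  have h2 : inner ℂ (WW ρ v i (ee j)) w =
      ∑ x ∈ (OO K i).filter (fun x => x j = 0), inner ℂ v w := by
    unfold WW
    rw [sum_inner, Finset.sum_filter]
    refine Finset.sum_congr rfl fun x hx => ?_
    rw [hf_single_right]
    split_ifs with h
    · have h3 := eq_cmb hik hij hjk h
      have h4 := inO_hf hK (mem_OO.1 hx)
      rw [h3, hf_cmb hK hik] at h4
      obtain ⟨g, hg, hgx⟩ := rot_mem hP hK hik hij hjk h4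
      have h5 : x = ac g (ee i) := h3.trans hgx.symm
      rw [h5, VV_ac hK hv]
      conv_lhs => rw [← hw g hg]
      rw [ap_inner]
    · rw [inner_zero_left]
  have h3 : ((OO K i).filter (fun x => x j = 0)).card = 60 := by
    rw [← h1, Nat.card_eq_fintype_card, Fintype.card_subtype]
    refine Finset.card_bij' (fun x _ => (x i, x k)) (fun p _ => cmb i k p) ?_ ?_ ?_ ?_
    · intro x hx
      simp only [Finset.mem_filter, mem_OO] at hx
      simp only [Finset.mem_filter, Finset.mem_univ, true_and]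
      have h3 := eq_cmb hik hij hjk hx.2
      have h4 := inO_hf hK hx.1
      rw [h3, hf_cmb hK hik] at h4
      exact h4
    · intro p hp
      simp only [Finset.mem_filter, Finset.mem_univ, true_and] at hp
      simp only [Finset.mem_filter, mem_OO]
      obtain ⟨g, hg, hgx⟩ := rot_mem hP hK hik hij hjk hp
      exact ⟨⟨g, hgx⟩, cmb_j hij hjk p⟩
    · intro x hx
      simp only [Finset.mem_filter, mem_OO] at hx
      exact (eq_cmb hik hij hjk hx.2).symm
    · intro p hp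
      simp only [cmb_i hik, cmb_k hik]
  rw [h2, Finset.sum_const, h3, nsmul_eq_mul]
  norm_num

theorem ang (hC : S_CNT) (hP : S_PL) (hK : Nat.card K = 16) {v w : H} {i j : Fin 3}
    (hij : i ≠ j)
    (hv : ∀ a ∈ St K 2 i, ap ρ a v = v) (hw : ∀ a ∈ St K 2 j, ap ρ a w = w)
    (hz : ∀ z : H, (∀ g : T K 2, ap ρ g z = z) → inner ℂ z v = 0) :
    ‖(inner ℂ v w : ℂ)‖ ≤ 1 / 3 * ‖v‖ * ‖w‖ := by
  obtain ⟨k, hik, hjk⟩ : ∃ k : Fin 3, i ≠ k ∧ j ≠ k := third i j
  have hj : inO i (ee j : Fin 3 → K) := swap_mem hP hK hij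
  have h1 := (lower hC hK hv hj).trans (upper hC hK hv hz)
  have hO : (0 : ℝ) < (OO K i).card := by
    have : 0 < (OO K i).card := Finset.card_pos.2 ⟨ee j, mem_OO.2 hj⟩
    exact_mod_cast this
  have h2 : ‖WW ρ v i (ee j)‖ ^ 2 ≤ (20 * ‖v‖) ^ 2 := by
    have h3 : (3 * ((OO K i).card : ℝ)) * ‖WW ρ v i (ee j)‖ ^ 2 ≤
        (3 * ((OO K i).card : ℝ)) * (20 * ‖v‖) ^ 2 := by
      calc _ ≤ _ := h1
        _ = _ := by ring
    exact le_of_mul_le_mul_left h3 (by positivity)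
  have h3 : ‖WW ρ v i (ee j)‖ ≤ 20 * ‖v‖ := (abs_le_of_sq_le_sq' h2 (by positivity)).2
  have h4 := inner_WW hC hP hK hik hij hjk hv hw
  have h5 : 60 * ‖(inner ℂ v w : ℂ)‖ ≤ 20 * ‖v‖ * ‖w‖ := by
    calc 60 * ‖(inner ℂ v w : ℂ)‖ = ‖(inner ℂ (WW ρ v i (ee j)) w : ℂ)‖ := by
          rw [h4, norm_mul]; norm_num
      _ ≤ ‖WW ρ v i (ee j)‖ * ‖w‖ := norm_inner_le_norm _ _
      _ ≤ 20 * ‖v‖ * ‖w‖ := mul_le_mul_of_nonneg_right h3 (norm_nonneg _)
  nlinarith

end final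

end Run7.h477.RK.ANG

namespace Run7.h477.RK

/-- **Piece ANG.** -/
theorem t_ANG : S_CNT → S_PL → S_ANG := by
  intro hC hP K _ _ _ hK i j hij H _ _ _ ρ v w hv hw hz
  have : Fintype K := Fintype.ofFinite K
  exact ANG.ang hC hP hK hij (ρ := ρ) hv hw (fun z h => hz z fun c _ => h c)

end Run7.h477.RK
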