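import Pool.Agent.Run7.h477.RK.Iface

/-!
# Assembly
-/

set_option autoImplicit false

namespace Run7.h477.RK

open Matrix

section
variable {K0 K : Type} [Field K0] [Field K] (j : K0 →+* K) (α : Kˣ)

theorem ph_val (i : Fin 3) (g : T K0 2) (l m : Fin 3) :
    ((ph j α i g : (Matrix (Fin 3) (Fin 3) K)ˣ) : Matrix (Fin 3) (Fin 3) K) l m =
      (if i ≠ 0 ∧ i ≤ l then (α : K) else 1) *
        j ((g.1 : Matrix (Fin 3) (Fin 3) K0) l m) *
        (if i ≠ 0 ∧ i ≤ m then ((α⁻¹ : Kˣ) : K) else 1) := by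
  have h : ((ph j α i g : (Matrix (Fin 3) (Fin 3) K)ˣ) : Matrix (Fin 3) (Fin 3) K) =
      Matrix.diagonal (fun l => if i ≠ 0 ∧ i ≤ l then (α : K) else 1) *
      (j.mapMatrix (g.1 : Matrix (Fin 3) (Fin 3) K0)) *
      Matrix.diagonal (fun l => if i ≠ 0 ∧ i ≤ l then ((α⁻¹ : Kˣ) : K) else 1) := rfl
  rw [h, Matrix.mul_diagonal, Matrix.diagonal_mul]
  rfl

theorem ph_blk (i : Fin 3) (g : T K0 2) (hg : Blk i (g.1 : Matrix (Fin 3) (Fin 3) K0)) :
    ph j α i g = ph j α (i + 1) g := by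
  apply Units.ext
  ext l m
  rw [ph_val, ph_val]
  have h01 : ∀ k, k ≠ i → (g.1 : Matrix (Fin 3) (Fin 3) K0) k i = 0 := fun k hk => (hg k hk).1
  have h02 : ∀ k, k ≠ i → (g.1 : Matrix (Fin 3) (Fin 3) K0) i k = 0 := fun k hk => (hg k hk).2
  have hα : (α : K) ≠ 0 := α.ne_zero
  obtain ⟨M, hM⟩ : ∃ M : Matrix (Fin 3) (Fin 3) K0, M = (g.1 : Matrix (Fin 3) (Fin 3) K0) :=
    ⟨_, rfl⟩
  rw [← hM] at h01 h02 ⊢
  fin_cases i
  · have a1 := h01 1 (by decide)
    have a2 := h01 2 (by decide)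
    have a3 := h02 1 (by decide)
    have a4 := h02 2 (by decide)
    simp only [Fin.zero_eta] at a1 a2 a3 a4
    fin_cases l <;> fin_cases m <;> simp [a1, a2, a3, a4, mul_comm]
  · have a1 := h01 0 (by decide)
    have a2 := h01 2 (by decide)
    have a3 := h02 0 (by decide)
    have a4 := h02 2 (by decide)
    simp only [Fin.mk_one] at a1 a2 a3 a4
    fin_cases l <;> fin_cases m <;> simp [a1, a2, a3, a4, mul_comm]
  · have a1 := h01 0 (by decide)
    have a2 := h01 1 (by decide)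
    have a3 := h02 0 (by decide)
    have a4 := h02 1 (by decide)
    simp only [Fin.reduceFinMk] at a1 a2 a3 a4
    fin_cases l <;> fin_cases m <;> simp [a1, a2, a3, a4, mul_comm]

/-- `ph i` and `ph (i + 1)` agree on the stabiliser of the line of `e_i` -/
theorem ph_St (i : Fin 3) (g : T K0 2) (hg : g ∈ St K0 2 i) : ph j α i g = ph j α (i + 1) g := by
  have h : St K0 2 i ≤ (ph j α i).eqLocus (ph j α (i + 1)) := by
    unfold St
    rw [Subgroup.closure_le]
    exact fun g hg => ph_blk j α i g hg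
  exact h hg

end

/-- the data of one quotient -/
structure Dat (K0 : Type) [Field K0] (n : ℕ) where
  K : Type
  fld : Field K
  fin : Finite K
  chr : CharP K 2
  e : ℕ
  j : K0 →+* K
  α : Kˣ
  hn : n ≤ e
  he : e % 4 = 2
  hK : Nat.card K = 2 ^ (2 * e)
  hα : orderOf α = 2 ^ e + 1

attribute [instance] Dat.fld Dat.fin Dat.chr

section
variable {K0 : Type} [Field K0] (D : ∀ n, Dat K0 n)

/-- the embeddings into the product -/
def PH (i : Fin 3) : T K0 2 →* (∀ n, (Matrix (Fin 3) (Fin 3) (D n).K)ˣ) :=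
  MonoidHom.pi fun n => ph (D n).j (D n).α i

/-- the group -/
def GG : Subgroup (∀ n, (Matrix (Fin 3) (Fin 3) (D n).K)ˣ) := ⨆ i, (PH D i).range

theorem PH_mem (i : Fin 3) (g : T K0 2) : PH D i g ∈ GG D :=
  (le_iSup (fun i => (PH D i).range) i) ⟨g, rfl⟩

/-- the embeddings into the group -/
def PG (i : Fin 3) : T K0 2 →* GG D := (PH D i).codRestrict (GG D) (PH_mem D i)

theorem PG_val (i : Fin 3) (g : T K0 2) (n : ℕ) :
    (PG D i g).1 n = ph (D n).j (D n).α i g := rfl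

theorem PG_St (i : Fin 3) (g : T K0 2) (hg : g ∈ St K0 2 i) : PG D i g = PG D (i + 1) g := by
  apply Subtype.ext
  funext n
  exact ph_St (D n).j (D n).α i g hg

/-- the three finite subgroups -/
def XX (i : Fin 3) : Subgroup (GG D) := (St K0 2 i).map (PG D i)

theorem XX_eq (i : Fin 3) : XX D i = (St K0 2 i).map (PG D (i + 1)) := by
  unfold XX
  ext x
  simp only [Subgroup.mem_map]
  constructor
  · rintro ⟨g, hg, rfl⟩
    exact ⟨g, hg, (PG_St D i g hg).symm⟩
  · rintro ⟨g, hg, rfl⟩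
    exact ⟨g, hg, PG_St D i g hg⟩

instance [Finite K0] (i : Fin 3) : Finite (XX D i) := by
  have h1 : Finite (T K0 2) := inferInstance
  have h2 : ((XX D i : Subgroup (GG D)) : Set (GG D)).Finite := by
    unfold XX
    rw [Subgroup.coe_map]
    exact (Set.toFinite _).image _
  exact h2.to_subtype

theorem iSup_PG : (⨆ i, (PG D i).range) = ⊤ := by
  apply Subgroup.map_injective (GG D).subtype_injective
  rw [Subgroup.map_iSup, ← MonoidHom.range_eq_map, Subgroup.range_subtype]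
  show (⨆ i, ((PG D i).range).map (GG D).subtype) = ⨆ i, (PH D i).range
  congr 1
  funext i
  rw [MonoidHom.map_range]
  rfl

theorem iSup_XX [Finite K0] [CharP K0 2] (h16 : Nat.card K0 = 16) (hG : S_GST) :
    (⨆ i, XX D i) = ⊤ := by
  rw [eq_top_iff, ← iSup_PG D]
  refine iSup_le fun i => ?_
  have hne : i ≠ i - 1 := by
    fin_cases i <;> decide
  have h1 := hG K0 2 (by rw [h16]; norm_num) i (i - 1) hne
  rw [MonoidHom.range_eq_map, ← h1, Subgroup.map_sup]
  refine sup_le (le_iSup (fun i => XX D i) i) ?_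
  have h2 : (St K0 2 (i - 1)).map (PG D i) = XX D (i - 1) := by
    rw [XX_eq, sub_add_cancel]
  rw [h2]
  exact le_iSup (fun i => XX D i) (i - 1)

end

/-- transport of angles -/
theorem ang_map {S G : Type} [Group S] [Group G] (φ : S →* G) (A B : Subgroup S)
    (h : Ang S A B ⊤) : Ang G (A.map φ) (B.map φ) φ.range := by
  intro H _ _ _ ρ v w hv hw hz
  refine h H (ρ.comp φ) v w (fun a ha => hv (φ a) ⟨a, ha, rfl⟩) (fun b hb => hw (φ b) ⟨b, hb, rfl⟩)
    (fun z hz' => hz z ?_)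
  rintro _ ⟨g, rfl⟩
  exact hz' g (Subgroup.mem_top g)

section
variable {K0 : Type} [Field K0] [Finite K0] [CharP K0 2] (D : ∀ n, Dat K0 n)

theorem ang_XX (h16 : Nat.card K0 = 16) (hA : S_ANG) (i j : Fin 3) (hij : i ≠ j) :
    ∃ C : Subgroup (GG D), XX D i ≤ C ∧ XX D j ≤ C ∧ Ang (GG D) (XX D i) (XX D j) C := by
  have h3 : j = i + 1 ∨ i = j + 1 := by
    revert i j; decide
  rcases h3 with h | h
  · subst h
    refine ⟨(PG D (i + 1)).range, ?_, ?_, ?_⟩
    · rw [XX_eq]; exact Subgroup.map_le_range _ _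
    · exact Subgroup.map_le_range _ _
    · rw [XX_eq]
      exact ang_map _ _ _ (hA K0 h16 i (i + 1) hij)
  · subst h
    refine ⟨(PG D (j + 1)).range, ?_, ?_, ?_⟩
    · exact Subgroup.map_le_range _ _
    · rw [XX_eq]; exact Subgroup.map_le_range _ _
    · rw [XX_eq D j]
      exact ang_map _ _ _ (hA K0 h16 (j + 1) j hij)

theorem kt_GG (h16 : Nat.card K0 = 16) (hT : S_TT) (hA : S_ANG) (hG : S_GST) : KT (GG D) :=
  hT (GG D) (XX D) (fun _ => inferInstance) (iSup_XX D h16 hG) (ang_XX D h16 hA)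

/-- the evaluation -/
def ev (n : ℕ) : GG D →* (Matrix (Fin 3) (Fin 3) (D n).K)ˣ :=
  (Pi.evalMonoidHom (fun n => (Matrix (Fin 3) (Fin 3) (D n).K)ˣ) n).comp (GG D).subtype

theorem ev_range (h16 : Nat.card K0 = 16) (hGen : S_GEN) (n : ℕ) :
    (ev D n).range = T (D n).K (D n).e := by
  rw [← hGen K0 (D n).K (D n).e (D n).j (D n).α h16 (D n).hK (D n).he (D n).hα,
    MonoidHom.range_eq_map, ← iSup_PG D, Subgroup.map_iSup]
  congr 1
  funext i
  rw [MonoidHom.map_range]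
  rfl

/-- the quotient map -/
noncomputable def qq (h16 : Nat.card K0 = 16) (hGen : S_GEN) (n : ℕ) : GG D →* T (D n).K (D n).e :=
  (ev D n).codRestrict (T (D n).K (D n).e)
    (fun g => by rw [← ev_range D h16 hGen n]; exact ⟨g, rfl⟩)

theorem qq_surj (h16 : Nat.card K0 = 16) (hGen : S_GEN) (n : ℕ) :
    Function.Surjective (qq D h16 hGen n) := by
  rintro ⟨x, hx⟩
  have hx' := hx
  rw [← ev_range D h16 hGen n] at hx'
  obtain ⟨g, hg⟩ := hx'
  exact ⟨g, Subtype.ext hg⟩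

end

theorem coprime3 (e : ℕ) (he : e % 4 = 2) : Nat.Coprime 3 (2 ^ e + 1) := by
  rw [Nat.Prime.coprime_iff_not_dvd Nat.prime_three]
  obtain ⟨k, rfl⟩ : ∃ k, e = 2 * k := ⟨e / 2, by omega⟩
  have h2 : 2 ^ (2 * k) % 3 = 1 := by
    rw [pow_mul, Nat.pow_mod]; simp
  omega

theorem rankOne_T (hB : S_BN) (hS : S_SIM) (K : Type) [Field K] [Finite K] [CharP K 2] (e : ℕ)
    (hK : Nat.card K = 2 ^ (2 * e)) (he : e % 4 = 2) : RankOne (T K e) := by
  have h2 : 2 ≤ e := by omega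
  obtain ⟨h3, h4, h5, h6⟩ := hB K e hK h2
  exact ⟨inferInstance, hS K e hK h2 (coprime3 e he) h5, Pt K e, phi hK, h3, h4, h5, h6⟩

/-- a lower bound for the order -/
theorem card_T (hP : S_PL) (K : Type) [Field K] [Finite K] [CharP K 2] (e : ℕ) (α : Kˣ)
    (hK : Nat.card K = 2 ^ (2 * e)) (hα : orderOf α = 2 ^ e + 1) : e < Nat.card (T K e) := by
  obtain ⟨g, hg, hg'⟩ := hP K e hK 0 1 (by decide) (α : K) 0 (by
    have h1 : α ^ (2 ^ e + 1) = 1 := by rw [← hα]; exact pow_orderOf_eq_one α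
    have h2 : (α : K) ^ (2 ^ e + 1) = 1 := by
      have := congrArg Units.val h1
      rwa [Units.val_pow_eq_pow_val, Units.val_one] at this
    unfold bar
    rw [pow_succ] at h2
    rw [mul_comm (α : K), h2]; simp)
  have h3 : ∀ k : ℕ, ((g ^ k : (Matrix (Fin 3) (Fin 3) K)ˣ) : Matrix (Fin 3) (Fin 3) K).mulVec
      (Pi.single 0 1) = (α : K) ^ k • (Pi.single 0 1 : Fin 3 → K) := by
    intro k
    induction k with
    | zero => rw [pow_zero, Units.val_one, Matrix.one_mulVec, pow_zero, one_smul]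
    | succ k ih =>
      rw [pow_succ, Units.val_mul, ← Matrix.mulVec_mulVec]
      have h4 : (g : Matrix (Fin 3) (Fin 3) K).mulVec (Pi.single 0 1) =
          (α : K) • (Pi.single 0 1 : Fin 3 → K) := by
        rw [hg']
        funext l
        fin_cases l <;> simp [pl, Matrix.mulVec, dotProduct, Fin.sum_univ_three]
      rw [h4, Matrix.mulVec_smul, ih, smul_smul, pow_succ, mul_comm]
  have h5 : orderOf α ∣ orderOf (⟨g, hg⟩ : T K e) := by
    rw [orderOf_dvd_iff_pow_eq_one]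
    have h6 : g ^ orderOf (⟨g, hg⟩ : T K e) = 1 := by
      have := pow_orderOf_eq_one (⟨g, hg⟩ : T K e)
      exact congrArg Subtype.val this
    have h7 := h3 (orderOf (⟨g, hg⟩ : T K e))
    rw [h6, Units.val_one, Matrix.one_mulVec] at h7
    have h8 := congrFun h7 0
    apply Units.ext
    simpa using h8.symm
  have h6 : orderOf (⟨g, hg⟩ : T K e) ≤ Nat.card (T K e) := by
    exact Nat.le_of_dvd Nat.card_pos (orderOf_dvd_natCard _)
  have h7 : orderOf α ≤ orderOf (⟨g, hg⟩ : T K e) :=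
    Nat.le_of_dvd (orderOf_pos _) h5
  have h8 : e < 2 ^ e := Nat.lt_two_pow_self
  omega

theorem t_ASM (hT : S_TT) (hA : S_ANG) (hG : S_GST) (hP : S_PL) (hB : S_BN) (hS : S_SIM)
    (hGen : S_GEN) (hF : S_FLD) :
    ∃ (G : Type) (_ : Group G), KT G ∧
    Set.Infinite {N : Subgroup G | ∃ (Q : Type) (_ : Group Q), ∃ f : G →* Q,
      Function.Surjective f ∧ f.ker = N ∧ RankOne Q} := by
  obtain ⟨K0, i1, i2, i3, h16, hF⟩ := hF
  have hD : ∀ n, Nonempty (Dat K0 n) := by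
    intro n
    obtain ⟨K, j1, j2, j3, e, j, α, h1, h2, h3, h4⟩ := hF n
    exact ⟨{ K := K, fld := j1, fin := j2, chr := j3, e := e, j := j, α := α, hn := h1, he := h2,
              hK := h3, hα := h4 }⟩
  obtain ⟨D⟩ : Nonempty (∀ n, Dat K0 n) := ⟨fun n => (hD n).some⟩
  refine ⟨GG D, inferInstance, kt_GG D h16 hT hA hG, ?_⟩
  intro hfin
  have h1 := (hfin.image Subgroup.index).bddAbove
  obtain ⟨B, hB'⟩ := h1
  have h2 : (qq D h16 hGen B).ker ∈ {N : Subgroup (GG D) | ∃ (Q : Type) (_ : Group Q),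
      ∃ f : GG D →* Q, Function.Surjective f ∧ f.ker = N ∧ RankOne Q} :=
    ⟨T (D B).K (D B).e, inferInstance, qq D h16 hGen B, qq_surj D h16 hGen B, rfl,
      rankOne_T hB hS (D B).K (D B).e (D B).hK (D B).he⟩
  have h3 := hB' ⟨_, h2, rfl⟩
  rw [Subgroup.index_ker, MonoidHom.range_eq_top.2 (qq_surj D h16 hGen B), Subgroup.card_top] at h3
  have h4 := card_T hP (D B).K (D B).e (D B).α (D B).hK (D B).hα
  have h5 := (D B).hn
  omega

end Run7.h477.RK
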