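import Pool.Agent.Run7.h477.RK.Defs

/-!
# Basic facts on the hermitian form and the transvections
-/

set_option autoImplicit false
set_option linter.unusedSectionVars false
set_option linter.unusedVariables false

namespace Run7.h477.RK

open Matrix

section
variable {K : Type} [Field K]

theorem bar_mul (e : ℕ) (x y : K) : bar e (x * y) = bar e x * bar e y := mul_pow _ _ _

theorem bar_one (e : ℕ) : bar e (1 : K) = 1 := one_pow _

theorem bar_zero (e : ℕ) : bar e (0 : K) = 0 := zero_pow (by positivity)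

theorem bar_inv (e : ℕ) (x : K) : bar e x⁻¹ = (bar e x)⁻¹ := inv_pow _ _

theorem bar_div (e : ℕ) (x y : K) : bar e (x / y) = bar e x / bar e y := div_pow _ _ _

theorem bar_pow (e n : ℕ) (x : K) : bar e (x ^ n) = bar e x ^ n := by
  unfold bar; rw [← pow_mul, ← pow_mul, mul_comm]

theorem bar_ne_zero {e : ℕ} {x : K} (h : x ≠ 0) : bar e x ≠ 0 := pow_ne_zero _ h

theorem bar_eq_zero {e : ℕ} {x : K} : bar e x = 0 ↔ x = 0 :=
  ⟨fun h => by by_contra h1; exact bar_ne_zero h1 h, fun h => by rw [h, bar_zero]⟩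

variable [CharP K 2]

theorem two0 : (2 : K) = 0 := CharTwo.two_eq_zero

theorem add_self0 (x : K) : x + x = 0 := CharTwo.add_self_eq_zero x

theorem bar_add (e : ℕ) (x y : K) : bar e (x + y) = bar e x + bar e y := by
  have : Fact (Nat.Prime 2) := ⟨Nat.prime_two⟩
  exact add_pow_char_pow x y 2 e

theorem bar_sum (e : ℕ) {ι : Type} (s : Finset ι) (f : ι → K) :
    bar e (∑ i ∈ s, f i) = ∑ i ∈ s, bar e (f i) := by
  classical
  induction s using Finset.induction_on with
  | empty => simp [bar_zero]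
  | insert a s ha ih => rw [Finset.sum_insert ha, Finset.sum_insert ha, bar_add, ih]

theorem bar_bar [Finite K] {e : ℕ} (hK : Nat.card K = 2 ^ (2 * e)) (x : K) :
    bar e (bar e x) = x := by
  have := Fintype.ofFinite K
  unfold bar
  rw [← pow_mul, ← pow_add, ← two_mul, ← hK, Nat.card_eq_fintype_card]
  exact FiniteField.pow_card x

/-- every element is a square, the root of an element fixed by `bar` is fixed by `bar` -/
theorem exists_sqrt [Finite K] (x : K) : ∃ s : K, s ^ 2 = x := by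
  have := Fintype.ofFinite K
  have h : Function.Injective (fun s : K => s ^ 2) := by
    intro a b hab
    have h1 : a ^ 2 + b ^ 2 = 0 := by
      have : a ^ 2 = b ^ 2 := hab
      rw [this, add_self0]
    have h2 : (a + b) ^ 2 = 0 := by rw [add_sq, mul_assoc, two0, zero_mul, add_zero, h1]
    have h3 : a + b = 0 := pow_eq_zero_iff (two_ne_zero) |>.1 h2
    calc a = a + b + b := by rw [add_assoc, add_self0, add_zero]
      _ = b := by rw [h3, zero_add]
  exact (Finite.injective_iff_surjective.1 h) x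

theorem sq_inj {a b : K} (hab : a ^ 2 = b ^ 2) : a = b := by
  have h1 : a ^ 2 + b ^ 2 = 0 := by rw [hab, add_self0]
  have h2 : (a + b) ^ 2 = 0 := by rw [add_sq, mul_assoc, two0, zero_mul, add_zero, h1]
  have h3 : a + b = 0 := pow_eq_zero_iff (two_ne_zero) |>.1 h2
  calc a = a + b + b := by rw [add_assoc, add_self0, add_zero]
    _ = b := by rw [h3, zero_add]

theorem exists_sqrt_bar [Finite K] {e : ℕ} {x : K} (hx : bar e x = x) :
    ∃ s : K, s ^ 2 = x ∧ bar e s = s := by
  obtain ⟨s, hs⟩ := exists_sqrt x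
  refine ⟨s, hs, sq_inj ?_⟩
  rw [← bar_pow, hs, hx]

theorem bar_norm [Finite K] {e : ℕ} (hK : Nat.card K = 2 ^ (2 * e)) (x : K) :
    bar e (x * bar e x) = x * bar e x := by
  rw [bar_mul, bar_bar hK, mul_comm]

/-! ### The form -/

theorem hf_add_left (e : ℕ) (u v w : Fin 3 → K) : hf e (u + v) w = hf e u w + hf e v w := by
  simp only [hf, Fin.sum_univ_three, Pi.add_apply]; ring

theorem hf_smul_left (e : ℕ) (c : K) (v w : Fin 3 → K) : hf e (c • v) w = c * hf e v w := by
  simp only [hf, Fin.sum_univ_three, Pi.smul_apply, smul_eq_mul]; ring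

theorem hf_add_right (e : ℕ) (u v w : Fin 3 → K) : hf e u (v + w) = hf e u v + hf e u w := by
  simp only [hf, Fin.sum_univ_three, Pi.add_apply, bar_add]; ring

theorem hf_smul_right (e : ℕ) (c : K) (v w : Fin 3 → K) : hf e v (c • w) = bar e c * hf e v w := by
  simp only [hf, Fin.sum_univ_three, Pi.smul_apply, smul_eq_mul, bar_mul]; ring

theorem hf_zero_left (e : ℕ) (w : Fin 3 → K) : hf e 0 w = 0 := by
  simp [hf]

theorem hf_zero_right (e : ℕ) (w : Fin 3 → K) : hf e w 0 = 0 := by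
  simp [hf, bar_zero]

theorem hf_bar [Finite K] {e : ℕ} (hK : Nat.card K = 2 ^ (2 * e)) (v w : Fin 3 → K) :
    bar e (hf e v w) = hf e w v := by
  simp only [hf, Fin.sum_univ_three, bar_add, bar_mul, bar_bar hK]; ring

theorem hf_single_right (e : ℕ) (v : Fin 3 → K) (i : Fin 3) : hf e v (Pi.single i 1) = v i := by
  unfold hf
  rw [Finset.sum_eq_single i]
  · rw [Pi.single_eq_same, bar_one, mul_one]
  · intro j _ hj
    rw [Pi.single_eq_of_ne hj, bar_zero, mul_zero]
  · intro h; exact absurd (Finset.mem_univ _) h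

theorem hf_single_left (e : ℕ) (v : Fin 3 → K) (i : Fin 3) :
    hf e (Pi.single i 1) v = bar e (v i) := by
  unfold hf
  rw [Finset.sum_eq_single i]
  · rw [Pi.single_eq_same, one_mul]
  · intro j _ hj
    rw [Pi.single_eq_of_ne hj, zero_mul]
  · intro h; exact absurd (Finset.mem_univ _) h

/-- the form is nondegenerate -/
theorem eq_zero_of_hf {e : ℕ} {v : Fin 3 → K} (h : ∀ w, hf e v w = 0) : v = 0 := by
  funext i
  rw [← hf_single_right e v i, h]
  rfl

/-! ### Transvections -/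

theorem tr_mulVec (e : ℕ) (x : Fin 3 → K) (c : K) (v : Fin 3 → K) :
    (tr e x c).mulVec v = v + (c * hf e v x) • x := by
  funext i
  rw [tr, Matrix.add_mulVec, Matrix.one_mulVec, Matrix.smul_mulVec]
  simp only [Pi.add_apply, Pi.smul_apply, smul_eq_mul, Matrix.mulVec, dotProduct,
    Matrix.vecMulVec_apply, Fin.sum_univ_three, hf]
  ring

theorem tr_smul (e : ℕ) (x : Fin 3 → K) (c μ : K) :
    tr e (μ • x) c = tr e x (c * (μ * bar e μ)) := by
  unfold tr
  congr 1
  ext i j
  simp only [Matrix.smul_apply, Matrix.vecMulVec_apply, Pi.smul_apply, smul_eq_mul, bar_mul]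
  ring

theorem ext_mulVec {A B : Matrix (Fin 3) (Fin 3) K} (h : ∀ v, A.mulVec v = B.mulVec v) : A = B :=
  Matrix.ext_of_mulVec_single fun _ => h _

theorem tr_mul {e : ℕ} {x : Fin 3 → K} (hx : hf e x x = 0) (c d : K) :
    tr e x c * tr e x d = tr e x (c + d) := by
  refine ext_mulVec fun v => ?_
  rw [← Matrix.mulVec_mulVec, tr_mulVec, tr_mulVec, tr_mulVec, hf_add_left, hf_smul_left, hx]
  module

theorem tr_zero (e : ℕ) (x : Fin 3 → K) : tr e x 0 = 1 := by
  simp [tr]

/-- the transvection as a unit -/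
def trU {e : ℕ} {x : Fin 3 → K} (hx : hf e x x = 0) (c : K) : (Matrix (Fin 3) (Fin 3) K)ˣ where
  val := tr e x c
  inv := tr e x c
  val_inv := by rw [tr_mul hx, add_self0, tr_zero]
  inv_val := by rw [tr_mul hx, add_self0, tr_zero]

theorem trU_val {e : ℕ} {x : Fin 3 → K} (hx : hf e x x = 0) (c : K) :
    ((trU hx c : (Matrix (Fin 3) (Fin 3) K)ˣ) : Matrix (Fin 3) (Fin 3) K) = tr e x c := rfl

theorem trU_mem {e : ℕ} {x : Fin 3 → K} (hx : hf e x x = 0) {c : K} (hc : bar e c = c) :
    trU hx c ∈ T K e := Subgroup.subset_closure ⟨x, c, hx, hc, rfl⟩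

theorem trU_mul {e : ℕ} {x : Fin 3 → K} (hx : hf e x x = 0) (c d : K) :
    trU hx c * trU hx d = trU hx (c + d) := Units.ext (tr_mul hx c d)

/-- `T` is generated by the `trU` -/
theorem T_eq (e : ℕ) : T K e = Subgroup.closure {u | ∃ (x : Fin 3 → K) (hx : hf e x x = 0) (c : K),
    bar e c = c ∧ u = trU hx c} := by
  unfold T
  congr 1
  ext u
  constructor
  · rintro ⟨x, c, hx, hc, hu⟩
    exact ⟨x, hx, c, hc, Units.ext hu⟩
  · rintro ⟨x, hx, c, hc, rfl⟩
    exact ⟨x, c, hx, hc, rfl⟩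

/-- transvections are unitary -/
theorem hf_tr [Finite K] {e : ℕ} (hK : Nat.card K = 2 ^ (2 * e)) {x : Fin 3 → K}
    (hx : hf e x x = 0) {c : K} (hc : bar e c = c) (v w : Fin 3 → K) :
    hf e ((tr e x c).mulVec v) ((tr e x c).mulVec w) = hf e v w := by
  rw [tr_mulVec, tr_mulVec]
  simp only [hf_add_left, hf_add_right, hf_smul_left, hf_smul_right, hx, bar_mul, hc, hf_bar hK]
  have h := add_self0 (c * hf e v x * hf e x w)
  linear_combination h

/-- the elements of `T` are unitary -/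
theorem hf_T [Finite K] {e : ℕ} (hK : Nat.card K = 2 ^ (2 * e)) {g : (Matrix (Fin 3) (Fin 3) K)ˣ}
    (hg : g ∈ T K e) (v w : Fin 3 → K) :
    hf e ((g : Matrix (Fin 3) (Fin 3) K).mulVec v) ((g : Matrix (Fin 3) (Fin 3) K).mulVec w) =
      hf e v w := by
  unfold T at hg
  induction hg using Subgroup.closure_induction generalizing v w with
  | mem g h =>
    obtain ⟨x, c, hx, hc, hu⟩ := h
    rw [hu]
    exact hf_tr hK hx hc v w
  | one => simp
  | mul a b _ _ ha hb =>
    rw [Units.val_mul, ← Matrix.mulVec_mulVec, ← Matrix.mulVec_mulVec, ha, hb]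
  | inv a _ ha =>
    rw [← ha]
    rw [Matrix.mulVec_mulVec, Matrix.mulVec_mulVec, Units.mul_inv, Matrix.one_mulVec,
      Matrix.one_mulVec]

/-- conjugation of transvections by unitary matrices -/
theorem conj_tr [Finite K] {e : ℕ} (g : (Matrix (Fin 3) (Fin 3) K)ˣ)
    (hg : ∀ v w, hf e ((g : Matrix (Fin 3) (Fin 3) K).mulVec v)
      ((g : Matrix (Fin 3) (Fin 3) K).mulVec w) = hf e v w) (x : Fin 3 → K) (c : K) :
    (g : Matrix (Fin 3) (Fin 3) K) * tr e x c * ((g⁻¹ : (Matrix (Fin 3) (Fin 3) K)ˣ) :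
      Matrix (Fin 3) (Fin 3) K) = tr e ((g : Matrix (Fin 3) (Fin 3) K).mulVec x) c := by
  refine ext_mulVec fun v => ?_
  have h1 : (g : Matrix (Fin 3) (Fin 3) K).mulVec
      (((g⁻¹ : (Matrix (Fin 3) (Fin 3) K)ˣ) : Matrix (Fin 3) (Fin 3) K).mulVec v) = v := by
    rw [Matrix.mulVec_mulVec, Units.mul_inv, Matrix.one_mulVec]
  rw [← Matrix.mulVec_mulVec, ← Matrix.mulVec_mulVec, tr_mulVec, tr_mulVec, Matrix.mulVec_add,
    Matrix.mulVec_smul, h1]
  congr 3
  rw [← hg, h1]

theorem conj_trU [Finite K] {e : ℕ} (g : (Matrix (Fin 3) (Fin 3) K)ˣ)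
    (hg : ∀ v w, hf e ((g : Matrix (Fin 3) (Fin 3) K).mulVec v)
      ((g : Matrix (Fin 3) (Fin 3) K).mulVec w) = hf e v w) {x : Fin 3 → K} (hx : hf e x x = 0)
    (c : K) : g * trU hx c * g⁻¹ = trU (x := (g : Matrix (Fin 3) (Fin 3) K).mulVec x)
      (by rw [hg]; exact hx) c :=
  Units.ext (by
    rw [Units.val_mul, Units.val_mul, trU_val, trU_val]
    exact conj_tr g hg x c)

/-- elements of `T` have determinant one -/
theorem det_tr {e : ℕ} {x : Fin 3 → K} (hx : hf e x x = 0) (c : K) : (tr e x c).det = 1 := by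
  simp only [hf, Fin.sum_univ_three] at hx
  simp only [tr, Matrix.det_fin_three, Matrix.add_apply, Matrix.smul_apply,
    Matrix.vecMulVec_apply, smul_eq_mul, Matrix.one_apply]
  norm_num [Fin.ext_iff]
  linear_combination c * hx

theorem det_T {e : ℕ} {g : (Matrix (Fin 3) (Fin 3) K)ˣ} (hg : g ∈ T K e) :
    (g : Matrix (Fin 3) (Fin 3) K).det = 1 := by
  unfold T at hg
  induction hg using Subgroup.closure_induction with
  | mem g h =>
    obtain ⟨x, c, hx, hc, hu⟩ := h
    rw [hu]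
    exact det_tr hx c
  | one => simp
  | mul a b _ _ ha hb => rw [Units.val_mul, Matrix.det_mul, ha, hb, one_mul]
  | inv a _ ha =>
    have h : (a : Matrix (Fin 3) (Fin 3) K).det *
        ((a⁻¹ : (Matrix (Fin 3) (Fin 3) K)ˣ) : Matrix (Fin 3) (Fin 3) K).det = 1 := by
      rw [← Matrix.det_mul, Units.mul_inv, Matrix.det_one]
    rwa [ha, one_mul] at h

end

end Run7.h477.RK
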