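import Mathlib

/-!
# A Kazhdan group with infinitely many quotients `PSU_3(q)`: definitions

`K` is a finite field of characteristic 2 with `q ^ 2` elements, `q = 2 ^ e`, and `bar x = x ^ q`.
`hf` is the standard hermitian form on `K ^ 3`, `T K e` the group generated by the unitary
transvections `v ↦ v + c h(v, x) x` (`x` isotropic, `bar c = c`), that is `SU_3(q)`.
-/

set_option autoImplicit false

namespace Run7.h477.RK

open Matrix

section
variable {K : Type} [Field K]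

/-- the involution `x ↦ x ^ (2 ^ e)` -/
def bar (e : ℕ) (x : K) : K := x ^ (2 ^ e)

/-- the hermitian form -/
def hf (e : ℕ) (v w : Fin 3 → K) : K := ∑ i, v i * bar e (w i)

/-- the matrix of the transvection `v ↦ v + c h(v, x) x` -/
def tr (e : ℕ) (x : Fin 3 → K) (c : K) : Matrix (Fin 3) (Fin 3) K :=
  1 + c • Matrix.vecMulVec x (fun i => bar e (x i))

end

/-- the group generated by the unitary transvections -/
def T (K : Type) [Field K] (e : ℕ) : Subgroup (Matrix (Fin 3) (Fin 3) K)ˣ :=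
  Subgroup.closure {u | ∃ (x : Fin 3 → K) (c : K), hf e x x = 0 ∧ bar e c = c ∧
    (u : Matrix (Fin 3) (Fin 3) K) = tr e x c}

/-- `g` preserves the line of the basis vector `e_i` (unitary matrices) -/
def Blk {K : Type} [Field K] (i : Fin 3) (g : Matrix (Fin 3) (Fin 3) K) : Prop :=
  ∀ k, k ≠ i → g k i = 0 ∧ g i k = 0

/-- Kazhdan's property (T), as in the frozen statement -/
def KT (G : Type) [Group G] : Prop :=
  ∀ (H : Type) [NormedAddCommGroup H] [InnerProductSpace ℂ H] [CompleteSpace H]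
    (ρ : G →* unitary (H →L[ℂ] H)),
    (∀ (S : Finset G) (ε : ℝ), 0 < ε →
      ∃ v : H, ‖v‖ = 1 ∧ ∀ s ∈ S, ‖(ρ s : H →L[ℂ] H) v - v‖ < ε) →
    ∃ v : H, v ≠ 0 ∧ ∀ g : G, (ρ g : H →L[ℂ] H) v = v

/-- finite simple groups of Lie type of rank one (split BN-pairs of rank one), as in the frozen
statement -/
def RankOne (Q : Type) [Group Q] : Prop :=
  Finite Q ∧ IsSimpleGroup Q ∧
    ∃ (X : Type) (φ : Q →* Equiv.Perm X), Finite X ∧ 3 ≤ Nat.card X ∧
      (∀ a b c d : X, a ≠ b → c ≠ d → ∃ g : Q, φ g a = c ∧ φ g b = d) ∧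
      ∃ (x : X) (U : Subgroup Q),
        (∀ u ∈ U, φ u x = x) ∧
        (∀ u ∈ U, ∀ h : Q, φ h x = x → h * u * h⁻¹ ∈ U) ∧
        ∀ y z : X, y ≠ x → z ≠ x → ∃! u : Q, u ∈ U ∧ φ u y = z

/-- the subgroups `A` and `B` of `G` have angle with cosine at most `1/3` relative to `C`: vectors
`v` fixed by `A` and orthogonal to the vectors fixed by `C`, and `w` fixed by `B`, satisfy
`|⟨v, w⟩| ≤ ‖v‖ ‖w‖ / 3`, in every unitary representation of `G`. -/
def Ang (G : Type) [Group G] (A B C : Subgroup G) : Prop :=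
  ∀ (H : Type) [NormedAddCommGroup H] [InnerProductSpace ℂ H] [CompleteSpace H]
    (ρ : G →* unitary (H →L[ℂ] H)) (v w : H),
    (∀ a ∈ A, (ρ a : H →L[ℂ] H) v = v) → (∀ b ∈ B, (ρ b : H →L[ℂ] H) w = w) →
    (∀ z : H, (∀ c ∈ C, (ρ c : H →L[ℂ] H) z = z) → inner ℂ z v = 0) →
    ‖(inner ℂ v w : ℂ)‖ ≤ 1 / 3 * ‖v‖ * ‖w‖

/-- the stabiliser of the line of `e_i` in `T K e`, as a subset -/
def StSet (K : Type) [Field K] (e : ℕ) (i : Fin 3) : Set (T K e) :=
  {g | Blk i (g.1 : Matrix (Fin 3) (Fin 3) K)}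

/-- the stabiliser of the line of `e_i` in `T K e` (generated by `StSet`, equal to it) -/
def St (K : Type) [Field K] (e : ℕ) (i : Fin 3) : Subgroup (T K e) :=
  Subgroup.closure (StSet K e i)

end Run7.h477.RK
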