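import Pool.Agent.Run7.h477.RK.Iface

/-!
# GEN: three copies of `SU_3(4)` generate `SU_3(2^e)`
-/

set_option autoImplicit false

namespace Run7.h477.RK

open Matrix

namespace GEN

/-- `M` is the matrix of an element of `D` -/
def Mem {K : Type} [Field K] (D : Subgroup (Matrix (Fin 3) (Fin 3) K)ˣ)
    (M : Matrix (Fin 3) (Fin 3) K) : Prop :=
  ∃ g ∈ D, (g : Matrix (Fin 3) (Fin 3) K) = M

/-- the vector `e_i + θ e_j` -/
def xv {K : Type} [Field K] (i j : Fin 3) (θ : K) : Fin 3 → K :=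
  (Pi.single i 1 : Fin 3 → K) + θ • (Pi.single j 1 : Fin 3 → K)

section
variable {K0 K : Type} [Field K0] [Finite K0] [CharP K0 2] [Field K] [Finite K] [CharP K 2]

omit [CharP K0 2] in
theorem pow16 (h0 : Nat.card K0 = 16) (x : K0) : x ^ 16 = x := by
  have := Fintype.ofFinite K0
  rw [← h0, Nat.card_eq_fintype_card]; exact FiniteField.pow_card x

omit [CharP K0 2] [Finite K] [CharP K 2] in
theorem j_bar (h0 : Nat.card K0 = 16) {e : ℕ} (he : e % 4 = 2) (j : K0 →+* K) (x : K0) :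
    bar e (j x) = j (bar 2 x) := by
  have h1 : ∀ m : ℕ, x ^ (16 ^ m) = x := by
    intro m
    induction m with
    | zero => simp
    | succ m ih => rw [pow_succ, pow_mul, ih, pow16 h0]
  obtain ⟨m, rfl⟩ : ∃ m, e = 4 * m + 2 := ⟨e / 4, by omega⟩
  unfold bar
  rw [← map_pow]
  congr 1
  have h2 : 2 ^ (4 * m + 2) = 16 ^ m * 2 ^ 2 := by
    rw [pow_add, pow_mul]; norm_num
  rw [h2, pow_mul, h1]

omit [Finite K] [CharP K 2] in
theorem dU_mulVec (α : Kˣ) (i : Fin 3) (v : Fin 3 → K) (l : Fin 3) :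
    ((dU α i : (Matrix (Fin 3) (Fin 3) K)ˣ) : Matrix (Fin 3) (Fin 3) K).mulVec v l =
      (if i ≠ 0 ∧ i ≤ l then (α : K) else 1) * v l := by
  show (Matrix.diagonal _).mulVec v l = _
  rw [Matrix.mulVec_diagonal]

omit [Finite K] [CharP K 2] in
theorem norm_of_order {e : ℕ} {α : Kˣ} (hα : orderOf α = 2 ^ e + 1) :
    (α : K) * bar e (α : K) = 1 := by
  unfold bar
  rw [← pow_succ', ← hα, ← Units.val_pow_eq_pow_val, pow_orderOf_eq_one, Units.val_one]

omit [Finite K] [CharP K 2] in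
theorem dU_unit {e : ℕ} {α : Kˣ} (h : (α : K) * bar e (α : K) = 1) (i : Fin 3)
    (v w : Fin 3 → K) :
    hf e (((dU α i : (Matrix (Fin 3) (Fin 3) K)ˣ) : Matrix (Fin 3) (Fin 3) K).mulVec v)
      (((dU α i : (Matrix (Fin 3) (Fin 3) K)ˣ) : Matrix (Fin 3) (Fin 3) K).mulVec w) =
      hf e v w := by
  unfold hf
  refine Finset.sum_congr rfl fun l _ => ?_
  rw [dU_mulVec, dU_mulVec, bar_mul]
  split_ifs
  · linear_combination (v l * bar e (w l)) * h
  · rw [bar_one]; ring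

/-- the extension of `ph` to the whole matrix group -/
def PH (j : K0 →+* K) (α : Kˣ) (i : Fin 3) :
    (Matrix (Fin 3) (Fin 3) K0)ˣ →* (Matrix (Fin 3) (Fin 3) K)ˣ :=
  (MulAut.conj (dU α i)).toMonoidHom.comp
    (Units.map (j.mapMatrix : Matrix (Fin 3) (Fin 3) K0 →+*
      Matrix (Fin 3) (Fin 3) K).toMonoidHom)

omit [Finite K0] [CharP K0 2] [Finite K] [CharP K 2] in
theorem ph_range (j : K0 →+* K) (α : Kˣ) (i : Fin 3) :
    (ph j α i).range = (T K0 2).map (PH j α i) := by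
  have : ph j α i = (PH j α i).comp (T K0 2).subtype := rfl
  rw [this, MonoidHom.range_comp, Subgroup.range_subtype]

omit [Finite K0] [CharP K0 2] [Finite K] [CharP K 2] in
theorem PH_val (j : K0 →+* K) (α : Kˣ) (i : Fin 3) (g : (Matrix (Fin 3) (Fin 3) K0)ˣ) :
    ((PH j α i g : (Matrix (Fin 3) (Fin 3) K)ˣ) : Matrix (Fin 3) (Fin 3) K) =
      ((dU α i : (Matrix (Fin 3) (Fin 3) K)ˣ) : Matrix (Fin 3) (Fin 3) K) *
        ((g : Matrix (Fin 3) (Fin 3) K0).map j) *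
        (((dU α i)⁻¹ : (Matrix (Fin 3) (Fin 3) K)ˣ) : Matrix (Fin 3) (Fin 3) K) := rfl

omit [CharP K0 2] [Finite K] [CharP K 2] in
theorem map_tr (h0 : Nat.card K0 = 16) {e : ℕ} (he : e % 4 = 2) (j : K0 →+* K)
    (x : Fin 3 → K0) (c : K0) :
    (tr 2 x c).map j = tr e (fun l => j (x l)) (j c) := by
  ext a b
  simp only [tr, Matrix.map_apply, Matrix.add_apply, Matrix.smul_apply, Matrix.vecMulVec_apply,
    smul_eq_mul, map_add, map_mul, Matrix.one_apply, j_bar h0 he]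
  congr 1
  split_ifs <;> simp

omit [CharP K0 2] [Finite K] [CharP K 2] in
theorem map_hf (h0 : Nat.card K0 = 16) {e : ℕ} (he : e % 4 = 2) (j : K0 →+* K)
    (x y : Fin 3 → K0) :
    hf e (fun l => j (x l)) (fun l => j (y l)) = j (hf 2 x y) := by
  unfold hf
  rw [map_sum]
  refine Finset.sum_congr rfl fun l _ => ?_
  rw [map_mul, j_bar h0 he]

omit [CharP K0 2] [Finite K] [CharP K 2] in
theorem map_pl (h0 : Nat.card K0 = 16) {e : ℕ} (he : e % 4 = 2) (j : K0 →+* K)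
    (i k : Fin 3) (a b : K0) :
    (pl 2 i k a b).map j = pl e i k (j a) (j b) := by
  ext l m
  simp only [pl, Matrix.map_apply, j_bar h0 he]
  split_ifs <;> simp

omit [CharP K0 2] in
theorem PH_tr (h0 : Nat.card K0 = 16) {e : ℕ} (he : e % 4 = 2) (j : K0 →+* K) {α : Kˣ}
    (hN : (α : K) * bar e (α : K) = 1) (i : Fin 3) (g : (Matrix (Fin 3) (Fin 3) K0)ˣ)
    (x : Fin 3 → K0) (c : K0) (hg : (g : Matrix (Fin 3) (Fin 3) K0) = tr 2 x c) :
    ((PH j α i g : (Matrix (Fin 3) (Fin 3) K)ˣ) : Matrix (Fin 3) (Fin 3) K) =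
      tr e (((dU α i : (Matrix (Fin 3) (Fin 3) K)ˣ) :
        Matrix (Fin 3) (Fin 3) K).mulVec (fun l => j (x l))) (j c) := by
  rw [PH_val, hg, map_tr h0 he]
  exact conj_tr (dU α i) (dU_unit hN i) _ _

omit [CharP K0 2] in
theorem le_T (h0 : Nat.card K0 = 16) {e : ℕ} (he : e % 4 = 2) (j : K0 →+* K) {α : Kˣ}
    (hN : (α : K) * bar e (α : K) = 1) (i : Fin 3) : (ph j α i).range ≤ T K e := by
  rw [ph_range]
  refine Subgroup.map_le_iff_le_comap.2 ((Subgroup.closure_le _).2 ?_)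
  rintro u ⟨x, c, hx, hc, hu⟩
  refine Subgroup.subset_closure ⟨_, j c, ?_, ?_, PH_tr h0 he j hN i u x c hu⟩
  · rw [dU_unit hN, map_hf h0 he, hx, map_zero]
  · rw [j_bar h0 he, hc]

/-! ### Elements of `D` -/

omit [Finite K] [CharP K 2] in
theorem Mem_one (D : Subgroup (Matrix (Fin 3) (Fin 3) K)ˣ) : Mem D 1 := ⟨1, D.one_mem, rfl⟩

omit [Finite K] [CharP K 2] in
theorem Mem_mul {D : Subgroup (Matrix (Fin 3) (Fin 3) K)ˣ} {M N : Matrix (Fin 3) (Fin 3) K}
    (hM : Mem D M) (hN : Mem D N) : Mem D (M * N) := by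
  obtain ⟨g, hg, rfl⟩ := hM
  obtain ⟨h, hh, rfl⟩ := hN
  exact ⟨g * h, D.mul_mem hg hh, rfl⟩

theorem Mem_conj {e : ℕ} (hK : Nat.card K = 2 ^ (2 * e))
    {D : Subgroup (Matrix (Fin 3) (Fin 3) K)ˣ} (hD : D ≤ T K e)
    {g : (Matrix (Fin 3) (Fin 3) K)ˣ} (hg : g ∈ D) {x : Fin 3 → K} {c : K}
    (h : Mem D (tr e x c)) : Mem D (tr e ((g : Matrix (Fin 3) (Fin 3) K).mulVec x) c) := by
  obtain ⟨u, hu, hux⟩ := h
  refine ⟨g * u * g⁻¹, D.mul_mem (D.mul_mem hg hu) (D.inv_mem hg), ?_⟩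
  rw [Units.val_mul, Units.val_mul, hux]
  exact conj_tr g (hf_T hK (hD hg)) x c

omit [Finite K] [CharP K 2] in
theorem xv02 (θ : K) : xv 0 2 θ = ![1, 0, θ] := by
  funext l
  fin_cases l <;> simp [xv]

omit [Finite K] in
theorem hf_xv {e : ℕ} {i j : Fin 3} (hij : i ≠ j) (θ : K) (hθ : θ * bar e θ = 1) :
    hf e (xv i j θ) (xv i j θ) = 0 := by
  unfold xv
  rw [hf_add_left, hf_add_right, hf_add_right, hf_smul_left, hf_smul_left, hf_smul_right,
    hf_smul_right, hf_single_right, hf_single_right, hf_single_right, hf_single_right,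
    Pi.single_eq_same, Pi.single_eq_same, Pi.single_eq_of_ne hij, Pi.single_eq_of_ne hij.symm]
  linear_combination hθ + add_self0 (1 : K)


omit [Finite K] [CharP K 2] in
/-- the swap of two basis vectors -/
theorem pl_swap (e : ℕ) {i j : Fin 3} (hij : i ≠ j) (m : Fin 3) (c : K) :
    (pl e i j (0 : K) 1).mulVec (c • (Pi.single m 1 : Fin 3 → K)) =
      c • (Pi.single (Equiv.swap i j m) 1 : Fin 3 → K) := by
  rw [Matrix.mulVec_smul, Matrix.mulVec_single_one]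
  congr 1
  funext l
  simp only [Matrix.col_apply, pl, bar_zero, bar_one, Pi.single_apply]
  by_cases h1 : m = i
  · subst h1
    rw [if_pos rfl, Equiv.swap_apply_left]
    by_cases h2 : l = m
    · rw [if_pos h2, if_neg (by rw [h2]; exact hij)]
    · rw [if_neg h2]
  · rw [if_neg h1]
    by_cases h2 : m = j
    · subst h2
      rw [if_pos rfl, Equiv.swap_apply_right]
      by_cases h3 : l = i
      · rw [if_pos h3, if_pos h3]
      · rw [if_neg h3, if_neg h3]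
        split_ifs <;> rfl
    · rw [if_neg h2, Equiv.swap_apply_of_ne_of_ne h1 h2]

omit [CharP K0 2] [Finite K] [CharP K 2] in
/-- the element `h = diag(α⁻¹, 1, α)` -/
theorem exists_h (h0 : Nat.card K0 = 16) {e : ℕ} (he : e % 4 = 2) (j : K0 →+* K) (α : Kˣ)
    (D : Subgroup (Matrix (Fin 3) (Fin 3) K)ˣ) (hD : ∀ i, (ph j α i).range ≤ D)
    (g0 : (Matrix (Fin 3) (Fin 3) K0)ˣ) (hg0 : g0 ∈ T K0 2)
    (hg : (g0 : Matrix (Fin 3) (Fin 3) K0) = pl 2 0 2 0 1) :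
    ∃ g ∈ D, (g : Matrix (Fin 3) (Fin 3) K) =
      Matrix.diagonal ![((α⁻¹ : Kˣ) : K), 1, (α : K)] := by
  have hm : ∀ i, PH j α i g0 ∈ D := fun i => hD i (by
    rw [ph_range]; exact Subgroup.mem_map_of_mem _ hg0)
  refine ⟨PH j α 1 g0 * PH j α 0 g0, D.mul_mem (hm 1) (hm 0), ?_⟩
  rw [Units.val_mul, PH_val, PH_val, hg, map_pl h0 he, map_zero, map_one]
  show (Matrix.diagonal (fun l : Fin 3 => if (1 : Fin 3) ≠ 0 ∧ 1 ≤ l then (α : K) else 1) *
      pl e 0 2 0 1 *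
      Matrix.diagonal (fun l : Fin 3 => if (1 : Fin 3) ≠ 0 ∧ 1 ≤ l then ((α⁻¹ : Kˣ) : K) else 1)) *
    (Matrix.diagonal (fun l : Fin 3 => if (0 : Fin 3) ≠ 0 ∧ 0 ≤ l then (α : K) else 1) *
      pl e 0 2 0 1 *
      Matrix.diagonal (fun l : Fin 3 => if (0 : Fin 3) ≠ 0 ∧ 0 ≤ l then ((α⁻¹ : Kˣ) : K) else 1)) = _
  ext a b
  fin_cases a <;> fin_cases b <;>
    simp [Matrix.mul_apply, Fin.sum_univ_three, pl, Matrix.diagonal_apply, bar_zero, bar_one]

omit [Finite K0] [CharP K0 2] [Finite K] [CharP K 2] in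
theorem mem_map (j : K0 →+* K) (α : Kˣ)
    (D : Subgroup (Matrix (Fin 3) (Fin 3) K)ˣ) (hD : ∀ i, (ph j α i).range ≤ D)
    (g0 : (Matrix (Fin 3) (Fin 3) K0)ˣ) (hg0 : g0 ∈ T K0 2) :
    Mem D ((g0 : Matrix (Fin 3) (Fin 3) K0).map j) := by
  refine ⟨PH j α 0 g0, hD 0 (by rw [ph_range]; exact Subgroup.mem_map_of_mem _ hg0), ?_⟩
  rw [PH_val]
  show (Matrix.diagonal (fun l : Fin 3 => if (0 : Fin 3) ≠ 0 ∧ 0 ≤ l then (α : K) else 1) *
      _ *
      Matrix.diagonal (fun l : Fin 3 => if (0 : Fin 3) ≠ 0 ∧ 0 ≤ l then ((α⁻¹ : Kˣ) : K) else 1)) = _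
  have h1 : (fun l : Fin 3 => if (0 : Fin 3) ≠ 0 ∧ 0 ≤ l then (α : K) else 1) = fun _ => 1 := by
    funext l; simp
  have h2 : (fun l : Fin 3 => if (0 : Fin 3) ≠ 0 ∧ 0 ≤ l then ((α⁻¹ : Kˣ) : K) else 1) =
      fun _ => 1 := by
    funext l; simp
  rw [h1, h2, Matrix.diagonal_one, Matrix.one_mul, Matrix.mul_one]

/-! ### Norm one -/

omit [Finite K] [CharP K 2] in
theorem exists_pow {e : ℕ} {α : Kˣ} (hα : orderOf α = 2 ^ e + 1) (he : 1 ≤ e) {θ : K}
    (hθ : θ * bar e θ = 1) : ∃ n : ℕ, ((α : K) ^ 2) ^ n = θ := by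
  have h1 : IsPrimitiveRoot (α : K) (2 ^ e + 1) := by
    rw [IsPrimitiveRoot.coe_units_iff, ← hα]
    exact IsPrimitiveRoot.orderOf α
  have h2 : IsPrimitiveRoot ((α : K) ^ 2) (2 ^ e + 1) := by
    refine h1.pow_of_coprime 2 ?_
    rw [Nat.Prime.coprime_iff_not_dvd Nat.prime_two]
    have : 2 ∣ 2 ^ e := dvd_pow_self 2 (by omega)
    omega
  have h3 : θ ^ (2 ^ e + 1) = 1 := by
    rw [pow_succ']; exact hθ
  have : NeZero (2 ^ e + 1) := ⟨Nat.succ_ne_zero _⟩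
  obtain ⟨i, _, hi⟩ := h2.eq_pow_of_pow_eq_one h3
  exact ⟨i, hi⟩

omit [Finite K] [CharP K 2] in
theorem norm_inv {e : ℕ} {θ : K} (hθ : θ * bar e θ = 1) : θ⁻¹ * bar e θ⁻¹ = 1 := by
  rw [bar_inv, ← mul_inv, hθ, inv_one]

theorem stepA {e : ℕ} (hK : Nat.card K = 2 ^ (2 * e)) {α : Kˣ} (hN : (α : K) * bar e (α : K) = 1)
    {D : Subgroup (Matrix (Fin 3) (Fin 3) K)ˣ} (hD : D ≤ T K e)
    (hh : Mem D (Matrix.diagonal ![((α⁻¹ : Kˣ) : K), 1, (α : K)])) {θ a : K}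
    (h : Mem D (tr e (xv 0 2 θ) a)) : Mem D (tr e (xv 0 2 ((α : K) ^ 2 * θ)) a) := by
  obtain ⟨g, hg, hgv⟩ := hh
  have h1 := Mem_conj hK hD hg h
  have h2 : (g : Matrix (Fin 3) (Fin 3) K).mulVec (xv 0 2 θ) =
      ((α⁻¹ : Kˣ) : K) • xv 0 2 ((α : K) ^ 2 * θ) := by
    rw [hgv, xv02, xv02]
    funext l
    rw [Matrix.mulVec_diagonal]
    fin_cases l
    · simp
    · simp
    · simp [pow_two, mul_assoc]
  rw [h2, tr_smul, Units.val_inv_eq_inv_val, norm_inv hN, mul_one] at h1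
  exact h1

theorem stepA' {e : ℕ} (hK : Nat.card K = 2 ^ (2 * e)) {α : Kˣ}
    (hN : (α : K) * bar e (α : K) = 1)
    {D : Subgroup (Matrix (Fin 3) (Fin 3) K)ˣ} (hD : D ≤ T K e)
    (hh : Mem D (Matrix.diagonal ![((α⁻¹ : Kˣ) : K), 1, (α : K)])) {θ a : K}
    (h : Mem D (tr e (xv 0 2 θ) a)) (n : ℕ) :
    Mem D (tr e (xv 0 2 (((α : K) ^ 2) ^ n * θ)) a) := by
  induction n with
  | zero => rw [pow_zero, one_mul]; exact h
  | succ n ih =>
    have := stepA hK hN hD hh ih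
    rwa [← mul_assoc, ← pow_succ'] at this

theorem transfer {e : ℕ} (hK : Nat.card K = 2 ^ (2 * e)) {α : Kˣ}
    (hα : orderOf α = 2 ^ e + 1) (he : 1 ≤ e)
    {D : Subgroup (Matrix (Fin 3) (Fin 3) K)ˣ} (hD : D ≤ T K e)
    (hh : Mem D (Matrix.diagonal ![((α⁻¹ : Kˣ) : K), 1, (α : K)])) {θ φ a : K}
    (hθ : θ * bar e θ = 1) (hφ : φ * bar e φ = 1)
    (h : Mem D (tr e (xv 0 2 θ) a)) : Mem D (tr e (xv 0 2 φ) a) := by
  have hθ0 : θ ≠ 0 := left_ne_zero_of_mul_eq_one hθ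
  obtain ⟨n, hn⟩ := exists_pow hα he (θ := φ * θ⁻¹) (by
    rw [bar_mul]
    linear_combination (θ⁻¹ * bar e θ⁻¹) * hφ + norm_inv hθ)
  have h1 := stepA' hK (norm_of_order hα) hD hh h n
  rw [hn, mul_assoc, inv_mul_cancel₀ hθ0, mul_one] at h1
  exact h1

/-- the additive group `A` -/
def A (e : ℕ) (D : Subgroup (Matrix (Fin 3) (Fin 3) K)ˣ) : AddSubgroup K where
  carrier := {a | bar e a = a ∧ Mem D (tr e (xv 0 2 1) a)}
  add_mem' := by
    rintro a b ⟨ha, ha'⟩ ⟨hb, hb'⟩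
    refine ⟨by rw [bar_add, ha, hb], ?_⟩
    rw [← tr_mul (hf_xv (by decide) 1 (by rw [bar_one, one_mul]))]
    exact Mem_mul ha' hb'
  zero_mem' := by
    refine ⟨bar_zero e, ?_⟩
    rw [tr_zero]
    exact Mem_one D
  neg_mem' := by
    rintro a ha
    rw [CharTwo.neg_eq]
    exact ha

/-- the fixed field -/
def Fx (K : Type) [Field K] [CharP K 2] (e : ℕ) : AddSubgroup K where
  carrier := {a | bar e a = a}
  add_mem' := by
    intro a b ha hb
    show bar e (a + b) = a + b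
    rw [bar_add, show bar e a = a from ha, show bar e b = b from hb]
  zero_mem' := bar_zero e
  neg_mem' := by
    rintro a ha
    rw [CharTwo.neg_eq]
    exact ha

theorem card_Fx {e : ℕ} (he : 1 ≤ e) : Nat.card (Fx K e) ≤ 2 ^ e := by
  classical
  have := Fintype.ofFinite K
  set p : Polynomial K := Polynomial.X ^ (2 ^ e) - Polynomial.X with hp
  have h1 : 1 < 2 ^ e := Nat.one_lt_two_pow (by omega)
  have hp0 : p ≠ 0 := FiniteField.X_pow_card_sub_X_ne_zero K h1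
  have hdeg : p.natDegree = 2 ^ e := FiniteField.X_pow_card_sub_X_natDegree_eq K h1
  have h2 : Nat.card (Fx K e) ≤ Nat.card p.roots.toFinset :=
    Nat.card_le_card_of_injective
      (fun a => ⟨a.1, by
        rw [Multiset.mem_toFinset, Polynomial.mem_roots hp0, Polynomial.IsRoot.def, hp,
          Polynomial.eval_sub, Polynomial.eval_pow, Polynomial.eval_X, sub_eq_zero]
        exact a.2⟩)
      (fun a b h => by
        have h' := congrArg Subtype.val h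
        exact Subtype.ext h')
  refine h2.trans ?_
  rw [Nat.card_eq_fintype_card, Fintype.card_coe, ← hdeg]
  exact (Multiset.toFinset_card_le _).trans (Polynomial.card_roots' p)

theorem bar_tau {e : ℕ} (hK : Nat.card K = 2 ^ (2 * e)) (ρ : K) :
    bar e (ρ + bar e ρ) = ρ + bar e ρ := by
  rw [bar_add, bar_bar hK, add_comm]

/-- `A` is closed under multiplication by `τ_ρ` -/
theorem stepC {e : ℕ} (hK : Nat.card K = 2 ^ (2 * e)) {α : Kˣ}
    (hα : orderOf α = 2 ^ e + 1) (he : 1 ≤ e)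
    {D : Subgroup (Matrix (Fin 3) (Fin 3) K)ˣ} (hD : D ≤ T K e)
    (hh : Mem D (Matrix.diagonal ![((α⁻¹ : Kˣ) : K), 1, (α : K)])) {c : K} (hc : c ^ 2 + c = 1)
    (hcA : c ∈ A e D) {ρ a : K} (hρ : ρ * bar e ρ = 1) (ha : a ∈ A e D) :
    (ρ + bar e ρ) * a ∈ A e D := by
  obtain ⟨hcb, g, hg, hgv⟩ := hcA
  obtain ⟨hab, haD⟩ := ha
  have h11 : (1 : K) * bar e 1 = 1 := by rw [bar_one, one_mul]
  have h2 : (2 : K) = 0 := two0
  set β : K := c * (1 + ρ) with hβ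
  have hbβ : bar e β = c * (1 + bar e ρ) := by rw [hβ, bar_mul, hcb, bar_add, bar_one]
  have hN1 : (1 + β) * bar e (1 + β) = 1 + (ρ + bar e ρ) := by
    rw [bar_add, bar_one, hbβ, hβ]
    linear_combination (c ^ 2) * hρ + (ρ + bar e ρ) * hc + (c + c ^ 2) * h2
  have hN2 : (ρ + β) * bar e (ρ + β) = 1 + (ρ + bar e ρ) := by
    rw [bar_add, hbβ, hβ]
    linear_combination (1 + 2 * c + c ^ 2) * hρ + (ρ + bar e ρ) * hc + (c + c ^ 2) * h2
  have hβ1 : 1 + β ≠ 0 := by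
    intro h0
    have h3 : (ρ + β) * bar e (ρ + β) = 0 := by rw [hN2, ← hN1, h0, zero_mul]
    have h4 : ρ + β = 0 := by
      rcases mul_eq_zero.1 h3 with h | h
      · exact h
      · exact bar_eq_zero.1 h
    have h5 : ρ = 1 := by linear_combination h4 - h0
    rw [h5] at hβ
    have h6 : β = 0 := by rw [hβ]; linear_combination c * h2
    rw [h6, add_zero] at h0
    exact one_ne_zero h0
  have hψ : ((ρ + β) / (1 + β)) * bar e ((ρ + β) / (1 + β)) = 1 := by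
    rw [bar_div, div_mul_div_comm, hN2, ← hN1]
    exact div_self (mul_ne_zero hβ1 (bar_ne_zero hβ1))
  -- transfer to `x_ρ`, conjugate
  have h3 := transfer hK hα he hD hh h11 hρ haD
  have h4 := Mem_conj hK hD hg h3
  have h5 : (g : Matrix (Fin 3) (Fin 3) K).mulVec (xv 0 2 ρ) =
      (1 + β) • xv 0 2 ((ρ + β) / (1 + β)) := by
    have h6 : hf e (xv 0 2 ρ) (xv 0 2 1) = 1 + ρ := by
      unfold xv
      rw [hf_add_left, hf_add_right, hf_add_right, hf_smul_left, hf_smul_left, one_smul,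
        hf_single_right, hf_single_right, hf_single_right, hf_single_right,
        Pi.single_eq_same, Pi.single_eq_same, Pi.single_eq_of_ne (by decide),
        Pi.single_eq_of_ne (by decide)]
      ring
    rw [hgv, tr_mulVec, h6, ← hβ, xv02, xv02, xv02]
    funext l
    fin_cases l
    · simp
    · simp
    · simp
      field_simp
  rw [h5, tr_smul, hN1] at h4
  have h7 := transfer hK hα he hD hh hψ h11 h4
  have h8 : a * (1 + (ρ + bar e ρ)) ∈ A e D := by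
    refine ⟨?_, h7⟩
    rw [bar_mul, hab, bar_add, bar_one, bar_tau hK]
  have h9 := (A e D).add_mem h8 ⟨hab, haD⟩
  have h10 : a * (1 + (ρ + bar e ρ)) + a = (ρ + bar e ρ) * a := by
    linear_combination a * h2
  rwa [h10] at h9

/-- `A = F` -/
theorem A_eq {e : ℕ} (hK : Nat.card K = 2 ^ (2 * e)) {α : Kˣ}
    (hα : orderOf α = 2 ^ e + 1) (he : 1 ≤ e)
    {D : Subgroup (Matrix (Fin 3) (Fin 3) K)ˣ} (hD : D ≤ T K e)
    (hh : Mem D (Matrix.diagonal ![((α⁻¹ : Kˣ) : K), 1, (α : K)])) {c : K} (hc : c ^ 2 + c = 1)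
    (hcA : c ∈ A e D) (h1A : (1 : K) ∈ A e D) : A e D = Fx K e := by
  obtain ⟨P, hP⟩ : ∃ P, 2 ^ e = 2 * P := ⟨2 ^ (e - 1), by
    rw [← pow_succ', Nat.sub_add_cancel he]⟩
  have hpw : ∀ i : ℕ, ((α ^ i : Kˣ) : K) * bar e ((α ^ i : Kˣ) : K) = 1 := by
    intro i
    rw [Units.val_pow_eq_pow_val, bar_pow, ← mul_pow, norm_of_order hα, one_pow]
  have hle : A e D ≤ Fx K e := fun a ha => ha.1
  let f : Fin (P + 1) → A e D := fun i =>
    ⟨((α ^ (i : ℕ) : Kˣ) : K) + bar e ((α ^ (i : ℕ) : Kˣ) : K), by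
      have := stepC hK hα he hD hh hc hcA (hpw i) h1A
      rwa [mul_one] at this⟩
  have hf : Function.Injective f := by
    intro i k hik
    have h1 : ((α ^ (i : ℕ) : Kˣ) : K) + bar e ((α ^ (i : ℕ) : Kˣ) : K) =
        ((α ^ (k : ℕ) : Kˣ) : K) + bar e ((α ^ (k : ℕ) : Kˣ) : K) := congrArg Subtype.val hik
    have hi := hpw i
    have hk := hpw k
    have hi2 := i.2
    have hk2 := k.2
    set u : K := ((α ^ (i : ℕ) : Kˣ) : K) with hu
    set v : K := ((α ^ (k : ℕ) : Kˣ) : K) with hv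
    have h2 : (2 : K) = 0 := two0
    have h3 : (u + v) * (u * v + 1) = 0 := by
      linear_combination u * v * h1 - v * hi + u * hk + (u * v ^ 2 + u) * h2
    rcases mul_eq_zero.1 h3 with h4 | h4
    · have h5 : u = v := by linear_combination h4 - v * h2
      have h6 : α ^ (i : ℕ) = α ^ (k : ℕ) := Units.ext h5
      rw [pow_inj_mod, hα, Nat.mod_eq_of_lt (by omega), Nat.mod_eq_of_lt (by omega)] at h6
      exact Fin.ext h6
    · have h5 : u * v = 1 := by linear_combination h4 - h2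
      have h6 : α ^ ((i : ℕ) + (k : ℕ)) = 1 := by
        apply Units.ext
        rw [pow_add, Units.val_mul, Units.val_one]
        exact h5
      have h7 := orderOf_dvd_of_pow_eq_one h6
      rw [hα] at h7
      have h8 : (i : ℕ) + (k : ℕ) = 0 := by
        by_contra h9
        have := Nat.le_of_dvd (Nat.pos_of_ne_zero h9) h7
        omega
      exact Fin.ext (by omega)
  have h1 : P + 1 ≤ Nat.card (A e D) := by
    have := Nat.card_le_card_of_injective f hf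
    rwa [Nat.card_eq_fintype_card, Fintype.card_fin] at this
  have h2 : Nat.card (Fx K e) ≤ 2 ^ e := card_Fx he
  have h3 : Nat.card (A e D) ∣ Nat.card (Fx K e) := AddSubgroup.card_dvd_of_le hle
  have h4 : 0 < Nat.card (Fx K e) := Nat.card_pos
  obtain ⟨n, hn⟩ := h3
  refine AddSubgroup.eq_of_le_of_card_ge hle ?_
  rcases Nat.lt_or_ge n 2 with h5 | h5
  · interval_cases n
    · omega
    · omega
  · have : (P + 1) * 2 ≤ Nat.card (A e D) * n := Nat.mul_le_mul h1 h5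
    omega

/-! ### All plane transvections, and the end -/

theorem P_step {e : ℕ} (hK : Nat.card K = 2 ^ (2 * e))
    {D : Subgroup (Matrix (Fin 3) (Fin 3) K)ˣ} (hD : D ≤ T K e)
    (hsw : ∀ i j : Fin 3, i ≠ j → Mem D (pl e i j (0 : K) 1)) {θ c : K} {i j k l i' j' : Fin 3}
    (hkl : k ≠ l) (hi : Equiv.swap k l i = i') (hj : Equiv.swap k l j = j')
    (h : Mem D (tr e (xv i j θ) c)) :
    Mem D (tr e (xv i' j' θ) c) := by
  rw [← hi, ← hj]
  obtain ⟨g, hg, hgv⟩ := hsw k l hkl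
  have h1 := Mem_conj hK hD hg h
  have h2 : (g : Matrix (Fin 3) (Fin 3) K).mulVec (xv i j θ) =
      xv (Equiv.swap k l i) (Equiv.swap k l j) θ := by
    rw [hgv]
    unfold xv
    have h3 := pl_swap e hkl i (1 : K)
    rw [one_smul, one_smul] at h3
    rw [Matrix.mulVec_add, pl_swap e hkl, h3]
  rwa [h2] at h1

theorem P_all {e : ℕ} (hK : Nat.card K = 2 ^ (2 * e))
    {D : Subgroup (Matrix (Fin 3) (Fin 3) K)ˣ} (hD : D ≤ T K e)
    (hsw : ∀ i j : Fin 3, i ≠ j → Mem D (pl e i j (0 : K) 1)) {θ c : K}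
    (h : Mem D (tr e (xv 0 2 θ) c)) : ∀ i j : Fin 3, i ≠ j → Mem D (tr e (xv i j θ) c) := by
  have s01 : (0 : Fin 3) ≠ 1 := by decide
  have s02 : (0 : Fin 3) ≠ 2 := by decide
  have h12 : Mem D (tr e (xv 1 2 θ) c) := P_step hK hD hsw s01 (by decide) (by decide) h
  have h10 : Mem D (tr e (xv 1 0 θ) c) := P_step hK hD hsw s02 (by decide) (by decide) h12
  have h01 : Mem D (tr e (xv 0 1 θ) c) := P_step hK hD hsw s01 (by decide) (by decide) h10
  have h21 : Mem D (tr e (xv 2 1 θ) c) := P_step hK hD hsw s02 (by decide) (by decide) h01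
  have h20 : Mem D (tr e (xv 2 0 θ) c) := P_step hK hD hsw s02 (by decide) (by decide) h
  intro i j hij
  have hcase : (i = 0 ∧ j = 1) ∨ (i = 0 ∧ j = 2) ∨ (i = 1 ∧ j = 0) ∨ (i = 1 ∧ j = 2) ∨
      (i = 2 ∧ j = 0) ∨ (i = 2 ∧ j = 1) := by
    revert i j
    decide
  rcases hcase with ⟨rfl, rfl⟩ | ⟨rfl, rfl⟩ | ⟨rfl, rfl⟩ | ⟨rfl, rfl⟩ | ⟨rfl, rfl⟩ | ⟨rfl, rfl⟩
  · exact h01
  · exact h
  · exact h10
  · exact h12
  · exact h20
  · exact h21

theorem T_le (hPL' : S_PL') (hTRA : S_TRA) {e : ℕ} (hK : Nat.card K = 2 ^ (2 * e)) {α : Kˣ}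
    (hα : orderOf α = 2 ^ e + 1) (he : 1 ≤ e)
    {D : Subgroup (Matrix (Fin 3) (Fin 3) K)ˣ} (hD : D ≤ T K e)
    (hsw : ∀ i j : Fin 3, i ≠ j → Mem D (pl e i j (0 : K) 1))
    (hh : Mem D (Matrix.diagonal ![((α⁻¹ : Kˣ) : K), 1, (α : K)])) {c : K} (hc : c ^ 2 + c = 1)
    (hcA : c ∈ A e D) (h1A : (1 : K) ∈ A e D) : T K e ≤ D := by
  have hA := A_eq hK hα he hD hh hc hcA h1A
  have h11 : (1 : K) * bar e 1 = 1 := by rw [bar_one, one_mul]
  have hpt : ∀ i j : Fin 3, i ≠ j → ∀ θ d : K, θ * bar e θ = 1 → bar e d = d →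
      Mem D (tr e (xv i j θ) d) := by
    intro i j hij θ d hθ hd
    refine P_all hK hD hsw ?_ i j hij
    have hdA : d ∈ A e D := by rw [hA]; exact hd
    exact transfer hK hα he hD hh h11 hθ hdA.2
  have hpl : ∀ i j : Fin 3, i ≠ j → ∀ a b : K, a * bar e a + b * bar e b = 1 →
      ∃ g ∈ D, (g : Matrix (Fin 3) (Fin 3) K) = pl e i j a b := fun i j hij =>
    hPL' K e hK i j hij D fun θ d hθ hd => hpt i j hij θ d hθ hd
  have htra := hTRA K e hK D hpl
  unfold T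
  refine (Subgroup.closure_le _).2 ?_
  rintro u ⟨x, d, hx, hd, hu⟩
  suffices hmem : Mem D (tr e x d) by
    obtain ⟨g, hg, hgv⟩ := hmem
    have : u = g := Units.ext (by rw [hu, hgv])
    rw [this]; exact hg
  by_cases hx0 : x = 0
  · have : tr e x d = 1 := by
      rw [hx0]
      refine ext_mulVec fun v => ?_
      rw [tr_mulVec, Matrix.one_mulVec, smul_zero, add_zero]
    rw [this]
    exact Mem_one D
  · have hy0 : (xv 0 2 1 : Fin 3 → K) ≠ 0 := by
      intro h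
      have := congrFun h 0
      rw [xv02] at this
      exact one_ne_zero this
    obtain ⟨g, hg, μ, hμ, hgx⟩ := htra (xv 0 2 1) x hy0 hx0 (hf_xv (by decide) 1 h11) hx
    have hμN : μ * bar e μ ≠ 0 := mul_ne_zero hμ (bar_ne_zero hμ)
    have hd' : bar e (d / (μ * bar e μ)) = d / (μ * bar e μ) := by
      rw [bar_div, hd, bar_norm hK]
    have h1 := Mem_conj hK hD hg (hpt 0 2 (by decide) 1 _ h11 hd')
    rw [hgx, tr_smul, div_mul_cancel₀ _ hμN] at h1
    exact h1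

/-- a primitive cube root of unity in the field with 16 elements -/
theorem exists_omega (h0 : Nat.card K0 = 16) :
    ∃ ω : K0, ω ^ 2 + ω = 1 ∧ bar 2 ω = ω := by
  have := Fintype.ofFinite K0
  have h1 : Nat.card K0ˣ = 15 := by
    rw [Nat.card_units, h0]
  have : Fact (Nat.Prime 3) := ⟨Nat.prime_three⟩
  obtain ⟨g, hg⟩ := exists_prime_orderOf_dvd_card' 3 (G := K0ˣ) (by rw [h1]; norm_num)
  have h3 : (g : K0) ^ 3 = 1 := by
    rw [← Units.val_pow_eq_pow_val, ← hg, pow_orderOf_eq_one, Units.val_one]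
  have h4 : (g : K0) ≠ 1 := by
    intro h
    have : g = 1 := Units.ext h
    rw [this, orderOf_one] at hg
    omega
  have h5 : ((g : K0) - 1) * ((g : K0) ^ 2 + (g : K0) + 1) = 0 := by
    linear_combination h3
  have h2 : (2 : K0) = 0 := two0
  refine ⟨g, ?_, ?_⟩
  · rcases mul_eq_zero.1 h5 with h | h
    · exact absurd (sub_eq_zero.1 h) h4
    · linear_combination h - h2
  · unfold bar
    show (g : K0) ^ (2 ^ 2) = g
    linear_combination (g : K0) * h3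

end

end GEN

open GEN in
/-- **GEN** -/
theorem t_GEN : S_PL' → S_PL → S_TRA → S_GEN := by
  intro hPL' hPL hTRA K0 K _ _ _ _ _ _ e j α h0 hK he hα
  have he1 : 1 ≤ e := by omega
  have hN := norm_of_order hα
  set D : Subgroup (Matrix (Fin 3) (Fin 3) K)ˣ := ⨆ i, (ph j α i).range with hDdef
  have hle : ∀ i, (ph j α i).range ≤ D := fun i => le_iSup (fun i => (ph j α i).range) i
  have hD : D ≤ T K e := iSup_le fun i => le_T h0 he j hN i
  refine le_antisymm hD ?_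
  have h0' : Nat.card K0 = 2 ^ (2 * 2) := by rw [h0]; norm_num
  have hpl0 : ∀ i k : Fin 3, i ≠ k → ∃ g ∈ T K0 2,
      (g : Matrix (Fin 3) (Fin 3) K0) = pl 2 i k 0 1 := fun i k hik =>
    hPL K0 2 h0' i k hik 0 1 (by rw [bar_zero, bar_one, zero_mul, one_mul, zero_add])
  have hsw : ∀ i k : Fin 3, i ≠ k → Mem D (pl e i k (0 : K) 1) := by
    intro i k hik
    obtain ⟨g, hg, hgv⟩ := hpl0 i k hik
    have := mem_map j α D hle g hg
    rwa [hgv, map_pl h0 he, map_zero, map_one] at this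
  obtain ⟨g02, hg02, hg02v⟩ := hpl0 0 2 (by decide)
  have hh := exists_h h0 he j α D hle g02 hg02 hg02v
  have hA : ∀ c : K0, bar 2 c = c → j c ∈ A e D := by
    intro c hc
    refine ⟨by rw [j_bar h0 he, hc], ?_⟩
    have hx : hf 2 (xv 0 2 1 : Fin 3 → K0) (xv 0 2 1) = 0 :=
      hf_xv (by decide) 1 (by rw [bar_one, one_mul])
    have := mem_map j α D hle (trU hx c) (trU_mem hx hc)
    rw [trU_val, map_tr h0 he] at this
    have h1 : (fun l => j ((xv 0 2 1 : Fin 3 → K0) l)) = (xv 0 2 1 : Fin 3 → K) := by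
      rw [xv02, xv02]
      funext l
      fin_cases l <;> simp
    rwa [h1] at this
  obtain ⟨ω, hω1, hω2⟩ := exists_omega h0
  refine T_le hPL' hTRA hK hα he1 hD hsw hh (c := j ω) ?_ (hA ω hω2) ?_
  · rw [← map_pow, ← map_add, hω1, map_one]
  · have := hA 1 (bar_one 2)
    rwa [map_one] at this

end Run7.h477.RK
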