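import Pool.Agent.Run7.h477.RK.Basic

/-!
# A Kazhdan group with infinitely many quotients `PSU_3(q)` (MP_5f0000_al, S01640): interface

`G` = the group generated by three copies of `S = SU_3(4)`, embedded in `∏ SU_3(4^m)` (`m` odd) as
`S`, `t_1 S t_1⁻¹`, `t_2 S t_2⁻¹` with `t_1 = diag(1, α, α)`, `t_2 = diag(1, 1, α)`, `α` of order
`4^m + 1`.  It is generated by three finite subgroups (stabilisers of the lines of the `e_i`) which
make angles of cosine at most `1/3 < 1/2`, so it has property (T); and it maps onto all `SU_3(4^m)`.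

Conventions: `bar x = x ^ (2^e)`, `card K = 2^(2e)`, characteristic 2 (so `-1 = 1`).  We write
`N a = a * bar a`, `F = {c | bar c = c}`.  `Basic.lean` has: `bar_add bar_mul bar_bar bar_sum bar_inv
bar_pow bar_norm exists_sqrt exists_sqrt_bar sq_inj`, `hf_add_left .. hf_bar hf_single_right
eq_zero_of_hf`, `tr_mulVec tr_smul tr_mul tr_zero trU trU_mem trU_mul T_eq hf_tr hf_T conj_tr
conj_trU det_tr det_T ext_mulVec`.
-/

set_option autoImplicit false
set_option linter.unusedSectionVars false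

namespace Run7.h477.RK

open Matrix

/-- the rotation `e_i ↦ a e_i + b e_j`, `e_j ↦ bar b e_i + bar a e_j` -/
def pl {K : Type} [Field K] (e : ℕ) (i j : Fin 3) (a b : K) : Matrix (Fin 3) (Fin 3) K :=
  fun l m =>
    if m = i then (if l = i then a else if l = j then b else 0)
    else if m = j then (if l = i then bar e b else if l = j then bar e a else 0)
    else (if l = m then 1 else 0)

/-! ## Points -/

/-- isotropic points -/
def Pt (K : Type) [Field K] (e : ℕ) : Type :=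
  {L : Submodule K (Fin 3 → K) // ∃ x : Fin 3 → K, x ≠ 0 ∧ hf e x x = 0 ∧ L = K ∙ x}

section
variable {K : Type} [Field K] [CharP K 2] [Finite K] {e : ℕ}

/-- the point of an isotropic vector -/
def mkPt (x : Fin 3 → K) (h0 : x ≠ 0) (h : hf e x x = 0) : Pt K e := ⟨K ∙ x, x, h0, h, rfl⟩

theorem mulVec_ne_zero (g : (Matrix (Fin 3) (Fin 3) K)ˣ) {x : Fin 3 → K} (h0 : x ≠ 0) :
    (g : Matrix (Fin 3) (Fin 3) K).mulVec x ≠ 0 := by
  intro h
  apply h0
  have h1 : ((g⁻¹ : (Matrix (Fin 3) (Fin 3) K)ˣ) : Matrix (Fin 3) (Fin 3) K).mulVec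
      ((g : Matrix (Fin 3) (Fin 3) K).mulVec x) = x := by
    rw [Matrix.mulVec_mulVec, Units.inv_mul, Matrix.one_mulVec]
  rw [← h1, h, Matrix.mulVec_zero]

/-- the action on points -/
def actPt (hK : Nat.card K = 2 ^ (2 * e)) (g : T K e) (p : Pt K e) : Pt K e :=
  ⟨p.1.map (Matrix.toLin' (g.1 : Matrix (Fin 3) (Fin 3) K)), by
    obtain ⟨x, h0, h, hL⟩ := p.2
    refine ⟨(g.1 : Matrix (Fin 3) (Fin 3) K).mulVec x, mulVec_ne_zero g.1 h0, ?_, ?_⟩
    · rw [hf_T hK g.2, h]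
    · rw [hL, Submodule.map_span, Set.image_singleton, Matrix.toLin'_apply]⟩

theorem actPt_mk (hK : Nat.card K = 2 ^ (2 * e)) (g : T K e) (x : Fin 3 → K) (h0 : x ≠ 0)
    (h : hf e x x = 0) : actPt hK g (mkPt x h0 h) =
      mkPt ((g.1 : Matrix (Fin 3) (Fin 3) K).mulVec x) (mulVec_ne_zero g.1 h0)
        (by rw [hf_T hK g.2, h]) := by
  apply Subtype.ext
  show Submodule.map _ (K ∙ x) = K ∙ _
  rw [Submodule.map_span, Set.image_singleton, Matrix.toLin'_apply]

/-- the permutation representation on the isotropic points -/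
def phi (hK : Nat.card K = 2 ^ (2 * e)) : T K e →* Equiv.Perm (Pt K e) :=
  MonoidHom.toHomPerm
    { toFun := fun g => (actPt hK g : Function.End (Pt K e))
      map_one' := by
        funext p
        apply Subtype.ext
        show Submodule.map (Matrix.toLin' ((1 : Matrix (Fin 3) (Fin 3) K))) p.1 = p.1
        rw [Matrix.toLin'_one, Submodule.map_id]
      map_mul' := fun g h => by
        funext p
        apply Subtype.ext
        show Submodule.map (Matrix.toLin' ((g.1 : Matrix (Fin 3) (Fin 3) K) *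
            (h.1 : Matrix (Fin 3) (Fin 3) K))) p.1 =
          Submodule.map (Matrix.toLin' (g.1 : Matrix (Fin 3) (Fin 3) K))
            (Submodule.map (Matrix.toLin' (h.1 : Matrix (Fin 3) (Fin 3) K)) p.1)
        rw [Matrix.toLin'_mul, Submodule.map_comp] }

theorem phi_apply (hK : Nat.card K = 2 ^ (2 * e)) (g : T K e) (p : Pt K e) :
    phi hK g p = actPt hK g p := rfl

end

/-! ## Embeddings -/

/-- `t_0 = 1`, `t_1 = diag(1, α, α)`, `t_2 = diag(1, 1, α)` -/
def dU {K : Type} [Field K] (α : Kˣ) (i : Fin 3) : (Matrix (Fin 3) (Fin 3) K)ˣ where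
  val := Matrix.diagonal fun l => if i ≠ 0 ∧ i ≤ l then (α : K) else 1
  inv := Matrix.diagonal fun l => if i ≠ 0 ∧ i ≤ l then ((α⁻¹ : Kˣ) : K) else 1
  val_inv := by
    rw [Matrix.diagonal_mul_diagonal, ← Matrix.diagonal_one]
    congr 1
    funext l
    split_ifs <;> simp
  inv_val := by
    rw [Matrix.diagonal_mul_diagonal, ← Matrix.diagonal_one]
    congr 1
    funext l
    split_ifs <;> simp

/-- the embedding `g ↦ t_i g t_i⁻¹` -/
def ph {K0 K : Type} [Field K0] [Field K] (j : K0 →+* K) (α : Kˣ) (i : Fin 3) :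
    T K0 2 →* (Matrix (Fin 3) (Fin 3) K)ˣ :=
  (MulAut.conj (dU α i)).toMonoidHom.comp
    ((Units.map (j.mapMatrix : Matrix (Fin 3) (Fin 3) K0 →+* Matrix (Fin 3) (Fin 3) K).toMonoidHom).comp
      (T K0 2).subtype)

/-! ## The statements -/

/-- **TT** (analysis, 200 lines). Three finite subgroups with pairwise angles of cosine `≤ 1/3` generate
a group with property (T). TAKEN by helper477. -/
def S_TT : Prop := ∀ (G : Type) [Group G] (X : Fin 3 → Subgroup G), (∀ i, Finite (X i)) →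
  (⨆ i, X i) = ⊤ →
  (∀ i j, i ≠ j → ∃ C : Subgroup G, X i ≤ C ∧ X j ≤ C ∧ Ang G (X i) (X j) C) → KT G

/-- **CNT** (counting, 150 lines). Let `card K = 16`, `e = 2`, `bar x = x^4`, `N a = a^5`.
(1) there are exactly 60 pairs with `N a + N b = 1`; (2) at most 5 elements of norm 1;
(3) 16 vectors orthogonal to two independent vectors; (4) 256 vectors orthogonal to a nonzero one;
(5) exactly 3 nonzero `c` with `bar c = c`.
Proof. `K^*` is cyclic of order 15 and `N a = a^5`. The equation `a^5 = s` has at most 5 solutions for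
every `s` (polynomial of degree 5); the values of `N` on `K^*` are among the 3 roots of `s^3 = 1`, and
`15 = 3 * 5` elements, so exactly 5 for each of the three `s`. `N a + N b = 1`: `(N a, N b)` is one
of `(0,1)`, `(1,0)`, `(ω, ω+1)`, `(ω+1, ω)` (`ω^2 + ω + 1 = 0`): `5 + 5 + 25 + 25 = 60`.
(3), (4): `y ↦ hf x y = bar (∑ bar (x_i) y_i)` (`hf_bar`), so the set is the kernel of a surjective
linear map to `K^2` resp. `K`; the number is `16^3/16^2` resp. `16^3/16`. One may also take the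
concrete field (all fields with 16 elements are isomorphic) and decide. (5) `c^4 = c`, `c ≠ 0` iff
`c^3 = 1`. -/
def S_CNT : Prop := ∀ (K : Type) [Field K] [Finite K] [CharP K 2], Nat.card K = 16 →
  Nat.card {p : K × K // p.1 * bar 2 p.1 + p.2 * bar 2 p.2 = 1} = 60 ∧
  Nat.card {a : K // a * bar 2 a = 1} ≤ 5 ∧
  (∀ x x' : Fin 3 → K, x ≠ 0 → (∀ μ : K, x' ≠ μ • x) →
    Nat.card {y : Fin 3 → K // hf 2 x y = 0 ∧ hf 2 x' y = 0} = 16) ∧
  (∀ x : Fin 3 → K, x ≠ 0 → Nat.card {y : Fin 3 → K // hf 2 x y = 0} = 256) ∧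
  Nat.card {c : K // c ≠ 0 ∧ bar 2 c = c} = 3

/-- **ANG** (250 lines, uses CNT, PL). The angle between the line stabilisers in `SU_3(4)`.
Proof. `S = T K 2` (finite). Let `v` be fixed by `St i` and orthogonal to the `S`-fixed vectors,
`w` fixed by `St j`, `k` the third index. `O = {g e_i : g ∈ S}` (a finite set of vectors `x` with
`hf x x = 1`, `hf_T`). For `x = g e_i` put `V x = ρ(g) v`; this is well defined, for `g e_i = g' e_i`
gives `g⁻¹ g' e_i = e_i`, so (unitary!) `g⁻¹ g' ∈ St i`. `V (g x) = ρ(g) (V x)`, `‖V x‖ = ‖v‖`.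
If `x, ζ x ∈ O` then `V (ζ x) = V x`: `x = g e_i`, `ζ x = g' e_i`, `g⁻¹ g' e_i = ζ e_i`, so
`g⁻¹ g' ∈ St i`. `∑_{x ∈ O} V x = 0`: this vector `z` is `S`-fixed, and `⟨z, V x⟩ = ⟨z, v⟩ = 0`.
For `y ∈ K^3` let `W y = ∑_{x ∈ O, hf x y = 0} V x`. Then
`∑_{y ≠ 0} ‖W y‖² = ∑_{x, x' ∈ O} #{y ≠ 0 : hf x y = hf x' y = 0} ⟨V x, V x'⟩`
`= 15 ‖∑ V x‖² + 240 ∑_x ∑_{x' ∈ O ∩ K x} ⟨V x, V x'⟩ ≤ 0 + 240 · |O| · 5 ‖v‖²`
by CNT (15 = 16 - 1 if `x'` is not a multiple of `x`, 255 = 256 - 1 otherwise; if `x' = ζ x` then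
`N ζ = 1`, at most 5 of them, and `V x' = V x`).
On the other hand `W (c y) = W y` for `c ≠ 0`, `W (g y) = ρ(g) (W y)` for `g ∈ S`, and `e_j ∈ O`
(`pl e i j 0 1`), so `‖W (c x)‖ = ‖W e_j‖` for all `x ∈ O`, `c ∈ F`, `c ≠ 0`; the vectors `c x` are
pairwise different and nonzero (`hf (c x) (c x) = c²`, `sq_inj`), there are `3 |O|` of them. Hence
`3 |O| ‖W e_j‖² ≤ 1200 |O| ‖v‖²`, `‖W e_j‖ ≤ 20 ‖v‖`.
Finally the `x ∈ O` with `hf x e_j = x_j = 0` are exactly the 60 vectors `a e_i + b e_k`,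
`N a + N b = 1` (`x = p e_i` with `p = pl e i k a b ∈ St j`), `⟨V x, w⟩ = ⟨ρ(p) v, w⟩ =
⟨v, ρ(p)⁻¹ w⟩ = ⟨v, w⟩`, so `60 |⟨v, w⟩| = |⟨W e_j, w⟩| ≤ 20 ‖v‖ ‖w‖`. -/
def S_ANG : Prop := ∀ (K : Type) [Field K] [Finite K] [CharP K 2], Nat.card K = 16 →
  ∀ i j : Fin 3, i ≠ j → Ang (T K 2) (St K 2 i) (St K 2 j) ⊤

/-- **PL** (120 lines). The plane rotations are products of at most two transvections.
Proof. If `a = 0` (`N b = 1`): `pl e i j 0 b = tr (e_i + b e_j) 1`. If `a ≠ 0`: let `s ∈ F` with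
`s² = N b` (`exists_sqrt_bar`), `g₀ = s / bar b` if `b ≠ 0` and `g₀ = 1` if `b = 0` (then `s = 0`),
so `N g₀ = 1`, `g₀ * bar b = s`, `s ≠ 1` (else `N a = 0`), `bar g₀ * b = s`, `N a = 1 + s²`. Then
`pl e i j a b = tr (a e_i + (b + g₀) e_j) (1/(1+s)) * tr (e_i + g₀ e_j) 1`: both vectors are
isotropic, and on `e_i`: `e_i ↦ g₀ e_j ↦ a e_i + b e_j`; on `e_j`: `e_j ↦ bar g₀ e_i ↦
bar b e_i + bar a e_j` (use `1 + s + N a = s (1 + s)`), `e_k` is fixed. (Matrix identity: `ext` and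
`fin_cases` on the indices, `field_simp`, `linear_combination`.) -/
def S_PL : Prop := ∀ (K : Type) [Field K] [Finite K] [CharP K 2] (e : ℕ),
  Nat.card K = 2 ^ (2 * e) → ∀ i j : Fin 3, i ≠ j → ∀ a b : K, a * bar e a + b * bar e b = 1 →
  ∃ g ∈ T K e, (g : Matrix (Fin 3) (Fin 3) K) = pl e i j a b

/-- **TRA** (120 lines, uses PL). A subgroup `D` of the matrix group which contains all plane rotations
is transitive on the isotropic points.
Proof. Let `x ≠ 0` be isotropic, `x_i ≠ 0`, `j, k` the other indices, `a = x_j / x_i`, `b = x_k / x_i`: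
`N a + N b = 1`. The inverse of `pl e j k a b` maps `x` to `x_i (e_i + e_j)`. The swaps
`pl e i j 0 1` map `e_i + e_j` to any other `e_k + e_l` (`k ≠ l`). So all isotropic vectors are
equivalent, up to scalars, to `e_0 + e_1`. -/
def S_TRA : Prop := ∀ (K : Type) [Field K] [Finite K] [CharP K 2] (e : ℕ),
  Nat.card K = 2 ^ (2 * e) → ∀ D : Subgroup (Matrix (Fin 3) (Fin 3) K)ˣ,
  (∀ i j : Fin 3, i ≠ j → ∀ a b : K, a * bar e a + b * bar e b = 1 →
    ∃ g ∈ D, (g : Matrix (Fin 3) (Fin 3) K) = pl e i j a b) →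
  ∀ x y : Fin 3 → K, x ≠ 0 → y ≠ 0 → hf e x x = 0 → hf e y y = 0 →
    ∃ g ∈ D, ∃ μ : K, μ ≠ 0 ∧ (g : Matrix (Fin 3) (Fin 3) K).mulVec x = μ • y

/-- **GST** (100 lines, uses PL, TRA). Two line stabilisers generate `T K e`.
Proof. Let `D` be generated by `St i`, `St j`, `k` the third index. `St i` contains the rotations
`pl e j k a b` and `pl e k j a b` (they are in `T` by PL and are block matrices), `St j` those of the
plane `i, k`. Conjugating by the swap `pl e j k 0 1` one gets those of the plane `i, j`. So `D` (as a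
subgroup of the matrix group) satisfies the hypothesis of TRA. `St i` contains the transvections
`tr (e_j + e_k) c`, `c ∈ F`, so by TRA, `conj_tr` (elements of `D` are unitary, `hf_T`) and `tr_smul`
`D` contains all transvections. -/
def S_GST : Prop := ∀ (K : Type) [Field K] [Finite K] [CharP K 2] (e : ℕ),
  Nat.card K = 2 ^ (2 * e) → ∀ i j : Fin 3, i ≠ j → St K e i ⊔ St K e j = ⊤

/-- **TOR** (60 lines). Torus elements of hyperbolic pairs.
Proof. For `μ ∈ F`, `μ ≠ 0` let `w(μ) = tr x μ * tr w μ⁻¹ * tr x μ`: `w ↦ w + μ x ↦ μ x ↦ μ x`,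
`x ↦ x ↦ x + μ⁻¹ w ↦ μ⁻¹ w`, and `w(μ) n = n` for `n ⊥ x, w`. Take `g = w(μ) * w(1)`. (`hf w x = 1` by
`hf_bar`.) -/
def S_TOR : Prop := ∀ (K : Type) [Field K] [Finite K] [CharP K 2] (e : ℕ),
  Nat.card K = 2 ^ (2 * e) → ∀ x w : Fin 3 → K, hf e x x = 0 → hf e w w = 0 → hf e x w = 1 →
  ∀ μ : K, μ ≠ 0 → bar e μ = μ → ∃ g ∈ T K e,
    (g : Matrix (Fin 3) (Fin 3) K).mulVec x = μ • x ∧
    (g : Matrix (Fin 3) (Fin 3) K).mulVec w = μ⁻¹ • w ∧
    ∀ n, hf e n x = 0 → hf e n w = 0 → (g : Matrix (Fin 3) (Fin 3) K).mulVec n = n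

/-- **UNP** (150 lines, uses TOR). The unipotent radical is transitive.
Proof. Since `F` has `2^e ≥ 4` elements there is `μ ∈ F`, `μ ≠ 0, 1` (the polynomial `X^(2^e) - X` has
`2^e` roots in `K`: e.g. `K^*` is cyclic of order `(2^e - 1)(2^e + 1)`, take a power of a generator).
There is `κ ∈ K` with `bar κ ≠ κ` (`card K > 2^e`), so every `s ∈ F` is `ζ + bar ζ` with
`ζ = s κ / (κ + bar κ)`. Put `w' = (1+μ)⁻¹ • (z + μ • y)`, `hf w' x = 1`, choose `ζ` with
`ζ + bar ζ = hf w' w'`, `w = w' + ζ • x`: `hf w w = 0`, `hf w x = 1`. Let `t_y`, `t_w` be the torus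
elements (TOR) of the pairs `x, y` and `x, w` for `μ`, and `g₁ = t_w * t_y⁻¹`. Then `g₁ x = x`; for
`v ⊥ x`: `v = n + η x` with `n = v + η x ⊥ x, y`, `η = hf v y`, so `t_y⁻¹ v ∈ v + K x`, and in the
same way `t_w v ∈ v + K x`. `g₁ y = t_w (μ y) = (1+μ) w + μ y + (..) x` (write `y = w + n' + η x`,
`η = hf y w`, `n' ⊥ x, w`), and this is `z + θ x` for some `θ`. As `z + θ x` is isotropic and
`hf z x = 1`, `θ + bar θ = 0`, so `bar θ = θ`, and `g = tr x θ * g₁` maps `y` to `z`. -/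
def S_UNP : Prop := ∀ (K : Type) [Field K] [Finite K] [CharP K 2] (e : ℕ),
  Nat.card K = 2 ^ (2 * e) → 2 ≤ e → ∀ x y z : Fin 3 → K, hf e x x = 0 → hf e y y = 0 →
  hf e z z = 0 → hf e y x = 1 → hf e z x = 1 → ∃ g ∈ T K e,
    (g : Matrix (Fin 3) (Fin 3) K).mulVec x = x ∧
    (g : Matrix (Fin 3) (Fin 3) K).mulVec y = z ∧
    ∀ v, hf e v x = 0 → ∃ c : K, (g : Matrix (Fin 3) (Fin 3) K).mulVec v = v + c • x

/-- **BN** (200 lines, uses PL, TRA, UNP). `T K e` acts two-transitively on the isotropic points, with a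
split BN-pair. Proof. Two different isotropic points `K x`, `K y` are not orthogonal (else with
`x_i ≠ 0`.. the space spanned by `x, y` would be totally isotropic of dimension 2; concretely if
`hf y x = 0` then `x, y ∈ x^⊥ ∩ y^⊥`, which has dimension 1; or: by TRA one may take `x = e_0 + e_1`,
`hf y x = 0` gives `y_0 = y_1`, and `hf y y = N y_2 = 0`), so `y` can be scaled to `hf y x = 1`.
Transitivity by TRA, two-transitivity by TRA and UNP. `x₀` = the point of `x = e_0 + e_1`,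
`U = {g ∈ T : g x = x, g v ∈ v + K x for all v ⊥ x}` is a subgroup, normalised by the stabiliser of
the point. Existence in `∃!` is UNP. Uniqueness: if `u ∈ U` fixes the point of `y` (`hf y x = 1`) then
`u y = ν y` and `hf (u y) x = hf (u y) (u x) = hf y x` gives `ν = 1`; if `n ⊥ x, y` then
`u n = n + c x`, `0 = hf n y = hf (u n) (u y) = c hf x y`, `c = 0`; every vector is a combination of
`x, y` and such an `n` (`v = hf v y • x + hf v x • y + n`), so `u = 1`. At least 3 points: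
`e_0 + θ e_1`, `N θ = 1` (at least 3 such `θ`, a power of a generator of `K^*`), or `e_0+e_1`,
`e_0+e_2`, `e_1+e_2`. `Finite (Pt K e)`: submodules of a finite module. -/
def S_BN : Prop := ∀ (K : Type) [Field K] [Finite K] [CharP K 2] (e : ℕ)
  (hK : Nat.card K = 2 ^ (2 * e)), 2 ≤ e →
  Finite (Pt K e) ∧ 3 ≤ Nat.card (Pt K e) ∧
  (∀ a b c d : Pt K e, a ≠ b → c ≠ d → ∃ g : T K e, phi hK g a = c ∧ phi hK g b = d) ∧
  ∃ (x : Pt K e) (U : Subgroup (T K e)),
    (∀ u ∈ U, phi hK u x = x) ∧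
    (∀ u ∈ U, ∀ h : T K e, phi hK h x = x → h * u * h⁻¹ ∈ U) ∧
    ∀ y z : Pt K e, y ≠ x → z ≠ x → ∃! u : T K e, u ∈ U ∧ phi hK u y = z

/-- **SIM** (250 lines, uses TRA+PL (transitivity), TOR; two-transitivity as a hypothesis).
Simplicity by Iwasawa's criterion (Mathlib: `MulAction.IwasawaStructure.isSimpleGroup` in
`Mathlib/GroupTheory/GroupAction/Iwasawa.lean`, or a direct proof).
`MulAction (T K e) (Pt K e)` from `phi` (`MulAction.compHom`). Faithful: if `g` fixes all isotropic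
points then it fixes the lines of `e_0+e_1`, `e_0+e_2`, `e_1+e_2`, `e_0+θ e_1` (`N θ = 1`, `θ ≠ 1`),
so it is a scalar `ν`, `ν³ = 1` (`det_T`), `N ν = 1` (`hf_T`), i.e. `ν^(2^e+1) = 1`, and
`gcd(3, 2^e+1) = 1` gives `ν = 1`. Primitive: two-transitive (Mathlib has
`MulAction.IsMultiplyPretransitive`, `isPreprimitive_of_is_two_pretransitive`). The abelian subgroups:
`R_p = {tr x c : c ∈ F}` for the point `p = K x` (independent of `x` by `tr_smul`), conjugated by
`conj_tr`; they generate `T` by definition. Perfect: `tr x c = [g, tr x c']` with `g` from TOR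
(`x, w` a hyperbolic pair, `w` exists: `e_0+e_1` and a suitable multiple of `e_0 + θ e_1`, then TRA;
or any `w'` with `hf w' x ≠ 0`, scaled and corrected by a multiple of `x`), `μ ∈ F`, `μ ≠ 0, 1`:
`g (tr x c') g⁻¹ = tr (μ x) c' = tr x (μ² c')`, so the commutator is `tr x ((μ²+1) c')`. -/
def S_SIM : Prop := ∀ (K : Type) [Field K] [Finite K] [CharP K 2] (e : ℕ)
  (hK : Nat.card K = 2 ^ (2 * e)), 2 ≤ e → Nat.Coprime 3 (2 ^ e + 1) →
  (∀ a b c d : Pt K e, a ≠ b → c ≠ d → ∃ g : T K e, phi hK g a = c ∧ phi hK g b = d) →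
  IsSimpleGroup (T K e)

/-- **GEN** (250 lines, uses PL, TRA). The three copies of `SU_3(4)` generate `SU_3(2^e)`.
Notation: `D = ⨆ i, (ph j α i).range`, `Q = 2^e`, `j` commutes with bar: `bar e (j x) = j (bar 2 x)`
(`x^16 = x` and `2^e ≡ 4 mod 15` as `e ≡ 2 mod 4`). `D ≤ T K e`: the image of `tr x c` under `ph j α i`
is `tr (t_i (j ∘ x)) (j c)` (`conj_tr`, `t_i` is unitary since `N α = α^(Q+1) = 1`).
`T K e ≤ D`: (1) `D` contains the image of `T K0 2`, in particular the swaps `n_{ij} = pl 0 1` (PL for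
`K0`), and `tr (e_0 + e_2) (j c)` for `c ∈ F_4`, and `h = (t_1 n_{02} t_1⁻¹) n_{02} =
diag(α⁻¹, 1, α)`. (2) For `N θ = 1` let `x_θ = e_0 + θ e_2` and `A_θ = {c ∈ F : tr x_θ c ∈ D}`, an
additive subgroup of `F`. Conjugation by `h` gives `A_θ = A_{θ α²}` (`tr_smul`, `N α = 1`). The `θ` of
norm one are the powers of `α²` (`α` has odd order `Q + 1`, and there are at most `Q + 1` such `θ`), so
`A_θ = A` for all `θ`, and `j F_4 ⊆ A` (`θ = 1`). (3) Let `ω ∈ F_4`, `ω² + ω = 1`, `c = j ω ∈ A`, `θ, φ`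
of norm 1, `β = c (1 + θ bar φ)`. Then `tr x_φ c` maps `x_θ` to `(1+β) e_0 + (θ + β φ) e_2 =
(1+β) x_ψ` (`1 + β ≠ 0`, since otherwise `(θ+βφ) e_2` would be isotropic), `N ψ = 1`. So conjugation
gives `A = A_θ = N(1+β)⁻¹ A_ψ`, i.e. `N(1+β) A = A`, and `N(1+β) = 1 + (c + c²) τ = 1 + τ`,
`τ = ρ + ρ⁻¹`, `ρ = θ bar φ` arbitrary of norm 1. Hence `τ a ∈ A` for `a ∈ A`; `a = 1`: `τ_ρ ∈ A` for
all `ρ` of norm 1. `τ_ρ = τ_ρ'` iff `ρ' = ρ^{±1}`, so `A` has at least `Q/2 + 1` elements; its order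
divides `Q`, so `A = F`. (4) By swaps `D` contains `tr (e_i + θ e_j) c` for all `i ≠ j`, `N θ = 1`,
`c ∈ F`, hence (proof of PL: the two transvections there are of this form up to scalars; restate PL
for the subgroup generated by these: `S_PL'`) all plane rotations. By TRA `D` is transitive on the
isotropic points, and so contains all transvections (`conj_tr`). -/
def S_GEN : Prop := ∀ (K0 K : Type) [Field K0] [Finite K0] [CharP K0 2] [Field K] [Finite K]
  [CharP K 2] (e : ℕ) (j : K0 →+* K) (α : Kˣ), Nat.card K0 = 16 → Nat.card K = 2 ^ (2 * e) →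
  e % 4 = 2 → orderOf α = 2 ^ e + 1 → (⨆ i, (ph j α i).range) = T K e

/-- **PL'** the refined form of PL: any subgroup `D` that contains the plane transvections contains the
plane rotations (same proof as PL: `a e_i + (b+g₀) e_j = a • (e_i + ((b+g₀)/a) e_j)`, `tr_smul`). PL
follows from it. Whoever does PL please do this one. -/
def S_PL' : Prop := ∀ (K : Type) [Field K] [Finite K] [CharP K 2] (e : ℕ),
  Nat.card K = 2 ^ (2 * e) → ∀ i j : Fin 3, i ≠ j → ∀ D : Subgroup (Matrix (Fin 3) (Fin 3) K)ˣ,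
  (∀ θ c : K, θ * bar e θ = 1 → bar e c = c → ∃ g ∈ D,
    (g : Matrix (Fin 3) (Fin 3) K) =
      tr e ((Pi.single i 1 : Fin 3 → K) + θ • (Pi.single j 1 : Fin 3 → K)) c) →
  ∀ a b : K, a * bar e a + b * bar e b = 1 →
  ∃ g ∈ D, (g : Matrix (Fin 3) (Fin 3) K) = pl e i j a b

/-- **FLD** (60 lines). The fields: `K0 = GaloisField 2 4`, `K = GaloisField 2 (2 e)`, `e = 2 (2 n + 1)`;
`j` exists since `4 ∣ 2 e`; `α` = a power of a generator of the cyclic group `K^*`. -/
def S_FLD : Prop := ∃ (K0 : Type) (_ : Field K0) (_ : Finite K0) (_ : CharP K0 2),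
  Nat.card K0 = 16 ∧ ∀ n : ℕ, ∃ (K : Type) (_ : Field K) (_ : Finite K) (_ : CharP K 2) (e : ℕ)
    (_ : K0 →+* K) (α : Kˣ), n ≤ e ∧ e % 4 = 2 ∧ Nat.card K = 2 ^ (2 * e) ∧ orderOf α = 2 ^ e + 1

/-- **ASM** (200 lines). The assembly. -/
def S_ASM : Prop := S_TT → S_ANG → S_GST → S_BN → S_SIM → S_GEN → S_FLD →
  ∃ (G : Type) (_ : Group G), KT G ∧
    Set.Infinite {N : Subgroup G | ∃ (Q : Type) (_ : Group Q), ∃ f : G →* Q,
      Function.Surjective f ∧ f.ker = N ∧ RankOne Q}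

end Run7.h477.RK
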