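import Pool.Agent.Run7.h477.RK.Iface

/-!
# The angle criterion for property (T)
-/

set_option autoImplicit false

namespace Run7.h477.RK

open RCLike

theorem pair_ineq {H : Type*} [NormedAddCommGroup H] [InnerProductSpace ℂ H] (A B C : Submodule ℂ H)
    [A.HasOrthogonalProjection] [B.HasOrthogonalProjection] [C.HasOrthogonalProjection]
    (hCA : C ≤ A) (hCB : C ≤ B)
    (h : ∀ v ∈ A, ∀ w ∈ B, (∀ z ∈ C, inner ℂ z v = 0) →
      ‖(inner ℂ v w : ℂ)‖ ≤ 1 / 3 * ‖v‖ * ‖w‖)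
    (w : H) :
    0 ≤ 2 * re (inner ℂ (w - A.starProjection w) (w - B.starProjection w)) +
      1 / 3 * (‖w - A.starProjection w‖ ^ 2 + ‖w - B.starProjection w‖ ^ 2) := by
  obtain ⟨c, hc⟩ : ∃ c, c = C.starProjection w := ⟨_, rfl⟩
  have hcC : c ∈ C := hc ▸ C.starProjection_apply_mem w
  obtain ⟨u, hu⟩ : ∃ u, u = w - c := ⟨_, rfl⟩
  have hA : w - A.starProjection w = u - A.starProjection u := by
    rw [hu, map_sub, Submodule.starProjection_eq_self_iff.2 (hCA hcC)]; abel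
  have hB : w - B.starProjection w = u - B.starProjection u := by
    rw [hu, map_sub, Submodule.starProjection_eq_self_iff.2 (hCB hcC)]; abel
  rw [hA, hB]
  obtain ⟨a, ha⟩ : ∃ a, a = A.starProjection u := ⟨_, rfl⟩
  obtain ⟨b, hb⟩ : ∃ b, b = B.starProjection u := ⟨_, rfl⟩
  have haA : a ∈ A := ha ▸ A.starProjection_apply_mem u
  have hbB : b ∈ B := hb ▸ B.starProjection_apply_mem u
  have hab : ‖(inner ℂ a b : ℂ)‖ ≤ 1 / 3 * ‖a‖ * ‖b‖ := by
    apply h a haA b hbB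
    intro z hz
    rw [ha, ← Submodule.inner_starProjection_left_eq_right,
      Submodule.starProjection_eq_self_iff.2 (hCA hz)]
    have h1 := C.starProjection_inner_eq_zero w z hz
    rw [← hc, ← hu] at h1
    rw [← inner_conj_symm, h1, map_zero]
  have hua : re (inner ℂ u a) = ‖a‖ ^ 2 := by
    have h1 := A.starProjection_inner_eq_zero u a haA
    rw [← ha, inner_sub_left, sub_eq_zero] at h1
    rw [h1, inner_self_eq_norm_sq]
  have hub : re (inner ℂ u b) = ‖b‖ ^ 2 := by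
    have h1 := B.starProjection_inner_eq_zero u b hbB
    rw [← hb, inner_sub_left, sub_eq_zero] at h1
    rw [h1, inner_self_eq_norm_sq]
  have hau : re (inner ℂ a u) = ‖a‖ ^ 2 := by rw [inner_re_symm, hua]
  have hbu : re (inner ℂ b u) = ‖b‖ ^ 2 := by rw [inner_re_symm, hub]
  rw [← ha, ← hb]
  have h1 : re (inner ℂ (u - a) (u - b)) = ‖u‖ ^ 2 - ‖b‖ ^ 2 - ‖a‖ ^ 2 + re (inner ℂ a b) := by
    rw [inner_sub_left, inner_sub_right, inner_sub_right]
    simp only [map_sub]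
    rw [hub, hau, inner_self_eq_norm_sq]
    ring
  have h2 : ‖u - a‖ ^ 2 = ‖u‖ ^ 2 - ‖a‖ ^ 2 := by
    rw [norm_sub_sq (𝕜 := ℂ), hua]; ring
  have h3 : ‖u - b‖ ^ 2 = ‖u‖ ^ 2 - ‖b‖ ^ 2 := by
    rw [norm_sub_sq (𝕜 := ℂ), hub]; ring
  have h4 : ‖u - ((3 / 4 : ℝ) : ℂ) • (a + b)‖ ^ 2 = ‖u‖ ^ 2 - 3 / 2 * (‖a‖ ^ 2 + ‖b‖ ^ 2) +
      9 / 16 * (‖a‖ ^ 2 + ‖b‖ ^ 2 + 2 * re (inner ℂ a b)) := by
    rw [norm_sub_sq (𝕜 := ℂ), inner_smul_right, norm_smul, mul_pow, norm_add_sq (𝕜 := ℂ) a b,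
      inner_add_right]
    have e1 : re (((3 / 4 : ℝ) : ℂ) * (inner ℂ u a + inner ℂ u b)) =
        3 / 4 * (‖a‖ ^ 2 + ‖b‖ ^ 2) := by
      rw [← hua, ← hub, ← map_add]
      exact RCLike.re_ofReal_mul (K := ℂ) _ _
    rw [e1, Complex.norm_real]
    norm_num
    ring
  have h5 : 0 ≤ ‖u - ((3 / 4 : ℝ) : ℂ) • (a + b)‖ ^ 2 := by positivity
  have h6 : re (inner ℂ a b) ≤ 1 / 3 * ‖a‖ * ‖b‖ := (RCLike.re_le_norm _).trans hab
  have h7 : 2 * (‖a‖ * ‖b‖) ≤ ‖a‖ ^ 2 + ‖b‖ ^ 2 := by nlinarith [sq_nonneg (‖a‖ - ‖b‖)]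
  rw [h1, h2, h3]
  rw [h4] at h5
  nlinarith

/-- the subspace of the vectors fixed by `A` -/
def fixS {G : Type} [Group G] {H : Type} [NormedAddCommGroup H] [InnerProductSpace ℂ H]
    [CompleteSpace H] (ρ : G →* unitary (H →L[ℂ] H)) (A : Subgroup G) : Submodule ℂ H where
  carrier := {v | ∀ a ∈ A, (ρ a : H →L[ℂ] H) v = v}
  add_mem' := by
    intro v w hv hw a ha
    rw [map_add, hv a ha, hw a ha]
  zero_mem' := fun a _ => map_zero _
  smul_mem' := by
    intro c v hv a ha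
    rw [map_smul, hv a ha]

section
variable {G : Type} [Group G] {H : Type} [NormedAddCommGroup H] [InnerProductSpace ℂ H]
    [CompleteSpace H] (ρ : G →* unitary (H →L[ℂ] H))

theorem mem_fixS (A : Subgroup G) (v : H) :
    v ∈ fixS ρ A ↔ ∀ a ∈ A, (ρ a : H →L[ℂ] H) v = v := Iff.rfl

theorem fixS_anti {A B : Subgroup G} (h : A ≤ B) : fixS ρ B ≤ fixS ρ A :=
  fun _ hv a ha => hv a (h ha)

theorem isClosed_fixS (A : Subgroup G) : IsClosed (fixS ρ A : Set H) := by
  have : (fixS ρ A : Set H) = ⋂ a : A, {v | (ρ a : H →L[ℂ] H) v = v} := by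
    ext v
    simp only [SetLike.mem_coe, mem_fixS, Set.mem_iInter, Set.mem_ofPred_eq, Subtype.forall]
  rw [this]
  exact isClosed_iInter fun a => isClosed_eq (ρ a : H →L[ℂ] H).continuous continuous_id

instance (A : Subgroup G) : (fixS ρ A).HasOrthogonalProjection := by
  have : CompleteSpace (fixS ρ A) := (isClosed_fixS ρ A).completeSpace_coe
  infer_instance

theorem rho_mul (g h : G) (v : H) :
    (ρ (g * h) : H →L[ℂ] H) v = (ρ g : H →L[ℂ] H) ((ρ h : H →L[ℂ] H) v) := by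
  rw [map_mul]; rfl

theorem rho_one (v : H) : (ρ 1 : H →L[ℂ] H) v = v := by
  rw [map_one]; rfl

/-- almost invariant under a finite subgroup: close to the fixed subspace -/
theorem dist_fixS (A : Subgroup G) [Finite A] (v : H) (δ : ℝ)
    (h : ∀ a ∈ A, ‖(ρ a : H →L[ℂ] H) v - v‖ ≤ δ) :
    ‖v - (fixS ρ A).starProjection v‖ ≤ δ := by
  classical
  have := Fintype.ofFinite A
  obtain ⟨n, hn⟩ : ∃ n : ℕ, n = Fintype.card A := ⟨_, rfl⟩
  have hn0 : (n : ℂ) ≠ 0 := by
    rw [hn]; exact_mod_cast Fintype.card_ne_zero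
  have hn1 : (0 : ℝ) < n := by
    rw [hn]; exact_mod_cast Fintype.card_pos
  obtain ⟨z, hz⟩ : ∃ z : H, z = (n : ℂ)⁻¹ • ∑ a : A, (ρ a : H →L[ℂ] H) v := ⟨_, rfl⟩
  have hzm : z ∈ fixS ρ A := by
    intro b hb
    rw [hz, map_smul, map_sum]
    congr 1
    rw [← Equiv.sum_comp (Equiv.mulLeft (⟨b, hb⟩ : A)) (fun a : A => (ρ a : H →L[ℂ] H) v)]
    refine Finset.sum_congr rfl fun a _ => ?_
    rw [← rho_mul]; rfl
  have h1 : v - z = (n : ℂ)⁻¹ • ∑ a : A, (v - (ρ a : H →L[ℂ] H) v) := by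
    rw [Finset.sum_sub_distrib, smul_sub, ← hz, Finset.sum_const, Finset.card_univ, ← hn,
      ← Nat.cast_smul_eq_nsmul ℂ, smul_smul, inv_mul_cancel₀ hn0, one_smul]
  have h2 : ‖v - z‖ ≤ δ := by
    rw [h1, norm_smul, norm_inv, Complex.norm_natCast]
    have h3 : ‖∑ a : A, (v - (ρ a : H →L[ℂ] H) v)‖ ≤ n * δ := by
      refine (norm_sum_le _ _).trans ?_
      refine (Finset.sum_le_card_nsmul _ _ δ fun a _ => ?_).trans ?_
      · rw [norm_sub_rev]; exact h a a.2
      · rw [Finset.card_univ, ← hn, nsmul_eq_mul]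
    calc (n : ℝ)⁻¹ * ‖∑ a : A, (v - (ρ a : H →L[ℂ] H) v)‖ ≤ (n : ℝ)⁻¹ * (n * δ) :=
          mul_le_mul_of_nonneg_left h3 (inv_nonneg.2 hn1.le)
      _ = δ := by rw [← mul_assoc, inv_mul_cancel₀ hn1.ne', one_mul]
  refine le_trans ?_ h2
  rw [Submodule.starProjection_minimal]
  exact ciInf_le ⟨0, by rintro _ ⟨x, rfl⟩; exact norm_nonneg _⟩ (⟨z, hzm⟩ : fixS ρ A)

end

section
variable {H : Type*} [NormedAddCommGroup H] [InnerProductSpace ℂ H]

theorem inner_Q (U : Submodule ℂ H) [U.HasOrthogonalProjection] (u d : H) :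
    re (inner ℂ (u - U.starProjection u) (d - U.starProjection d)) =
      re (inner ℂ (u - U.starProjection u) d) := by
  rw [inner_sub_right, U.starProjection_inner_eq_zero u _ (U.starProjection_apply_mem d), sub_zero]

theorem norm_Q_le (U : Submodule ℂ H) [U.HasOrthogonalProjection] (u : H) :
    ‖u - U.starProjection u‖ ≤ ‖u‖ := by
  have h1 : ‖u - U.starProjection u‖ ^ 2 ≤ ‖u - U.starProjection u‖ * ‖u‖ := by
    rw [← inner_self_eq_norm_sq (𝕜 := ℂ), inner_Q]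
    exact (RCLike.re_le_norm _).trans (norm_inner_le_norm _ _)
  by_contra hlt
  push Not at hlt
  have h2 : 0 ≤ ‖u‖ := norm_nonneg _
  nlinarith

/-- the energy -/
noncomputable def En (U : Fin 3 → Submodule ℂ H) [∀ i, (U i).HasOrthogonalProjection] (u : H) : ℝ :=
  ∑ i, ‖u - (U i).starProjection u‖ ^ 2

/-- the operator `Δ` -/
noncomputable def De (U : Fin 3 → Submodule ℂ H) [∀ i, (U i).HasOrthogonalProjection] (u : H) : H :=
  ∑ i, (u - (U i).starProjection u)

variable (U : Fin 3 → Submodule ℂ H) [∀ i, (U i).HasOrthogonalProjection]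

theorem En_nonneg (u : H) : 0 ≤ En U u := Finset.sum_nonneg fun _ _ => by positivity

theorem En_le (u : H) : En U u ≤ 3 * ‖u‖ ^ 2 := by
  unfold En
  have : ∀ i, ‖u - (U i).starProjection u‖ ^ 2 ≤ ‖u‖ ^ 2 := fun i =>
    pow_le_pow_left₀ (norm_nonneg _) (norm_Q_le (U i) u) 2
  refine (Finset.sum_le_sum fun i _ => this i).trans ?_
  simp

theorem De_norm (u : H) : ‖De U u‖ ^ 2 = En U u +
    2 * re (inner ℂ (u - (U 0).starProjection u) (u - (U 1).starProjection u)) +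
    2 * re (inner ℂ (u - (U 0).starProjection u) (u - (U 2).starProjection u)) +
    2 * re (inner ℂ (u - (U 1).starProjection u) (u - (U 2).starProjection u)) := by
  unfold De En
  simp only [Fin.sum_univ_three]
  rw [norm_add_sq (𝕜 := ℂ), norm_add_sq (𝕜 := ℂ), inner_add_left, map_add]
  ring

theorem De_le (u : H) : ‖De U u‖ ^ 2 ≤ 3 * En U u := by
  unfold De En
  simp only [Fin.sum_univ_three]
  obtain ⟨a, ha⟩ : ∃ a, a = ‖u - (U 0).starProjection u‖ := ⟨_, rfl⟩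
  obtain ⟨b, hb⟩ : ∃ b, b = ‖u - (U 1).starProjection u‖ := ⟨_, rfl⟩
  obtain ⟨c, hc⟩ : ∃ c, c = ‖u - (U 2).starProjection u‖ := ⟨_, rfl⟩
  have h1 := norm_add₃_le (a := u - (U 0).starProjection u) (b := u - (U 1).starProjection u)
    (c := u - (U 2).starProjection u)
  rw [← ha, ← hb, ← hc] at h1 ⊢
  have h2 := pow_le_pow_left₀ (norm_nonneg _) h1 2
  nlinarith [sq_nonneg (a - b), sq_nonneg (a - c), sq_nonneg (b - c)]

theorem De_ge (hp : ∀ i j, i ≠ j → ∀ w, 0 ≤ 2 * re (inner ℂ (w - (U i).starProjection w)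
      (w - (U j).starProjection w)) + 1 / 3 * (‖w - (U i).starProjection w‖ ^ 2 +
        ‖w - (U j).starProjection w‖ ^ 2)) (u : H) : 1 / 3 * En U u ≤ ‖De U u‖ ^ 2 := by
  rw [De_norm]
  have h01 := hp 0 1 (by decide) u
  have h02 := hp 0 2 (by decide) u
  have h12 := hp 1 2 (by decide) u
  have hE : En U u = ‖u - (U 0).starProjection u‖ ^ 2 + ‖u - (U 1).starProjection u‖ ^ 2 +
      ‖u - (U 2).starProjection u‖ ^ 2 := by
    unfold En; simp only [Fin.sum_univ_three]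
  rw [hE]
  linarith

/-- one step of the iteration -/
noncomputable def nx (u : H) : H := u - ((1 / 3 : ℝ) : ℂ) • De U u

theorem En_nx (u : H) : En U (nx U u) =
    En U u - 2 / 3 * ‖De U u‖ ^ 2 + 1 / 9 * En U (De U u) := by
  have h1 : ∀ i, ‖nx U u - (U i).starProjection (nx U u)‖ ^ 2 =
      ‖u - (U i).starProjection u‖ ^ 2
      - 2 / 3 * re (inner ℂ (u - (U i).starProjection u) (De U u))
      + 1 / 9 * ‖De U u - (U i).starProjection (De U u)‖ ^ 2 := by
    intro i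
    have e1 : nx U u - (U i).starProjection (nx U u) = (u - (U i).starProjection u) -
        ((1 / 3 : ℝ) : ℂ) • (De U u - (U i).starProjection (De U u)) := by
      unfold nx
      rw [map_sub, map_smul, smul_sub]
      abel
    rw [e1, norm_sub_sq (𝕜 := ℂ), inner_smul_right, norm_smul, mul_pow, Complex.norm_real]
    have e2 : re (((1 / 3 : ℝ) : ℂ) * inner ℂ (u - (U i).starProjection u)
        (De U u - (U i).starProjection (De U u))) =
        1 / 3 * re (inner ℂ (u - (U i).starProjection u) (De U u)) := by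
      rw [← inner_Q]
      exact RCLike.re_ofReal_mul (K := ℂ) _ _
    rw [e2]
    norm_num
    ring
  have h2 : ∑ i, re (inner ℂ (u - (U i).starProjection u) (De U u)) = ‖De U u‖ ^ 2 := by
    rw [← map_sum, ← sum_inner]
    exact inner_self_eq_norm_sq (𝕜 := ℂ) (De U u)
  unfold En
  rw [Finset.sum_congr rfl fun i _ => h1 i, Finset.sum_add_distrib, Finset.sum_sub_distrib,
    ← Finset.mul_sum, ← Finset.mul_sum, h2]

theorem En_nx_le (hp : ∀ i j, i ≠ j → ∀ w, 0 ≤ 2 * re (inner ℂ (w - (U i).starProjection w)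
      (w - (U j).starProjection w)) + 1 / 3 * (‖w - (U i).starProjection w‖ ^ 2 +
        ‖w - (U j).starProjection w‖ ^ 2)) (u : H) : En U (nx U u) ≤ 8 / 9 * En U u := by
  rw [En_nx]
  have h1 := En_le U (De U u)
  have h2 := De_ge U hp u
  linarith

theorem dist_nx (u : H) : ‖nx U u - u‖ ^ 2 ≤ 1 / 3 * En U u := by
  have h1 := De_le U u
  have e1 : nx U u - u = -(((1 / 3 : ℝ) : ℂ) • De U u) := by
    unfold nx; abel
  rw [e1, norm_neg, norm_smul, mul_pow, Complex.norm_real]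
  norm_num
  linarith

/-- the iteration -/
theorem iter [CompleteSpace H]
    (hp : ∀ i j, i ≠ j → ∀ w, 0 ≤ 2 * re (inner ℂ (w - (U i).starProjection w)
      (w - (U j).starProjection w)) + 1 / 3 * (‖w - (U i).starProjection w‖ ^ 2 +
        ‖w - (U j).starProjection w‖ ^ 2)) (v : H) (hv : ‖v‖ = 1)
    (hQ : ∀ i, ‖v - (U i).starProjection v‖ ≤ 1 / 36) :
    ∃ w : H, w ≠ 0 ∧ ∀ i, w ∈ U i := by
  obtain ⟨s, hs⟩ : ∃ s : ℕ → H, s = fun n => (nx U)^[n] v := ⟨_, rfl⟩
  have hs0 : s 0 = v := by rw [hs]; rfl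
  have hs1 : ∀ n, s (n + 1) = nx U (s n) := by
    intro n; rw [hs]; exact Function.iterate_succ_apply' _ _ _
  have hE0 : En U v ≤ 3 * (1 / 36) ^ 2 := by
    unfold En
    refine (Finset.sum_le_sum fun i _ => pow_le_pow_left₀ (norm_nonneg _) (hQ i) 2).trans ?_
    simp
  have hE : ∀ n, En U (s n) ≤ 3 * (1 / 36) ^ 2 * (8 / 9) ^ n := by
    intro n
    induction n with
    | zero => rw [hs0]; linarith
    | succ n ih =>
      rw [hs1]
      have h1 := En_nx_le U hp (s n)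
      have h2 : ((8 : ℝ) / 9) ^ (n + 1) = (8 / 9) ^ n * (8 / 9) := pow_succ _ _
      rw [h2]
      linarith
  have hd : ∀ n, dist (s n) (s (n + 1)) ≤ 1 / 36 * (17 / 18) ^ n := by
    intro n
    rw [dist_comm, dist_eq_norm, hs1]
    refine abs_le_of_sq_le_sq' ?_ (by positivity) |>.2
    refine (dist_nx U (s n)).trans ?_
    have h1 := hE n
    have h2 : ((8 : ℝ) / 9) ^ n ≤ ((17 / 18) ^ 2) ^ n :=
      pow_le_pow_left₀ (by norm_num) (by norm_num) n
    rw [← pow_mul, mul_comm 2 n, pow_mul] at h2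
    rw [mul_pow]
    linarith
  have hc : CauchySeq s := cauchySeq_of_le_geometric _ _ (by norm_num) hd
  obtain ⟨w, hw⟩ := cauchySeq_tendsto_of_complete hc
  refine ⟨w, ?_, ?_⟩
  · have h1 := dist_le_of_le_geometric_of_tendsto₀ _ _ (by norm_num) hd hw
    rw [hs0] at h1
    intro h0
    rw [h0, dist_zero_right, hv] at h1
    norm_num at h1
  · intro i
    have h1 : Filter.Tendsto (fun n => ‖s n - (U i).starProjection (s n)‖ ^ 2) Filter.atTop
        (nhds 0) := by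
      refine squeeze_zero (fun n => by positivity) (fun n => ?_)
        (g := fun n => 3 * (1 / 36) ^ 2 * (8 / 9 : ℝ) ^ n) ?_
      · refine le_trans ?_ (hE n)
        unfold En
        exact Finset.single_le_sum (f := fun i => ‖s n - (U i).starProjection (s n)‖ ^ 2)
          (fun _ _ => by positivity) (Finset.mem_univ i)
      · have := (tendsto_pow_atTop_nhds_zero_of_lt_one (r := (8 / 9 : ℝ)) (by norm_num)
          (by norm_num)).const_mul (3 * (1 / 36 : ℝ) ^ 2)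
        rwa [mul_zero] at this
    have h2 : Filter.Tendsto (fun n => ‖s n - (U i).starProjection (s n)‖ ^ 2) Filter.atTop
        (nhds (‖w - (U i).starProjection w‖ ^ 2)) :=
      ((hw.sub (((U i).starProjection.continuous.tendsto w).comp hw)).norm).pow 2
    have h3 := tendsto_nhds_unique h2 h1
    have h4 : w - (U i).starProjection w = 0 := by
      rw [← norm_eq_zero]; exact pow_eq_zero_iff (two_ne_zero) |>.1 h3
    rw [← Submodule.starProjection_eq_self_iff (K := U i)]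
    exact (sub_eq_zero.1 h4).symm

end

theorem t_TT : S_TT := by
  intro G _ X hfin htop hang H _ _ _ ρ hinv
  classical
  -- the finite set
  have hfS : ∀ i, (X i : Set G).Finite := fun i => Set.toFinite _
  obtain ⟨S, hS⟩ : ∃ S : Finset G, ∀ i, ∀ g ∈ X i, g ∈ S :=
    ⟨Finset.univ.biUnion fun i => (hfS i).toFinset, fun i g hg => by
      rw [Finset.mem_biUnion]
      exact ⟨i, Finset.mem_univ _, by rw [Set.Finite.mem_toFinset]; exact hg⟩⟩
  obtain ⟨v, hv1, hv2⟩ := hinv S (1 / 36) (by norm_num)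
  obtain ⟨w, hw0, hw⟩ := iter (fun i => fixS ρ (X i)) (by
    intro i j hij w
    obtain ⟨C, hiC, hjC, hA⟩ := hang i j hij
    exact pair_ineq (fixS ρ (X i)) (fixS ρ (X j)) (fixS ρ C) (fixS_anti ρ hiC) (fixS_anti ρ hjC)
      (fun v hv w hw hz => hA H ρ v w hv hw hz) w) v hv1 (by
    intro i
    exact dist_fixS ρ (X i) v (1 / 36) fun a ha => (hv2 a (hS i a ha)).le)
  refine ⟨w, hw0, fun g => ?_⟩
  obtain ⟨D, hD⟩ : ∃ D : Subgroup G, ∀ g, g ∈ D ↔ (ρ g : H →L[ℂ] H) w = w :=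
    ⟨{ carrier := {g | (ρ g : H →L[ℂ] H) w = w}
       mul_mem' := fun {a b} ha hb => by
        show (ρ (a * b) : H →L[ℂ] H) w = w
        rw [rho_mul, show (ρ b : H →L[ℂ] H) w = w from hb]
        exact ha
       one_mem' := rho_one ρ w
       inv_mem' := fun {a} ha => by
        show (ρ a⁻¹ : H →L[ℂ] H) w = w
        have h1 : (ρ a⁻¹ : H →L[ℂ] H) ((ρ a : H →L[ℂ] H) w) = w := by
          rw [← rho_mul, inv_mul_cancel, rho_one]
        rwa [show (ρ a : H →L[ℂ] H) w = w from ha] at h1 }, fun g => Iff.rfl⟩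
  have h1 : (⨆ i, X i) ≤ D := iSup_le fun i a ha => (hD a).2 (hw i a ha)
  rw [htop] at h1
  exact (hD g).1 (h1 (Subgroup.mem_top g))

end Run7.h477.RK
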